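import Pool.Agent.P.MP_119182_lc.AG.Iface

/-! Step ABS. -/

set_option autoImplicit false

namespace Pool.Agent.P.MP_119182_lc.AG

open Finset
open scoped Classical
open NU (Run mr)
open LU (key tch up low isl Nx within beyond LK)

theorem p_ABS (hT : LU.S_T) (hPOK : S_POK) (hPRI : S_PRI) (hREF : S_REF) (hRAI : S_RAI) (hBC : S_BC) (hZG : S_ZG) (hMIR : S_MIR) :
    S_ABS := by
  obtain ⟨C1, h1⟩ := hT
  obtain ⟨C2, h2⟩ := hBC
  intro K
  obtain ⟨E, hE⟩ : ∃ E, E = C1 * K ^ 2 := ⟨_, rfl⟩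
  refine ⟨1200 * E + 2 * K + C2 * (128 * E + 2 * K + 1) ^ 2, fun d S h => ?_⟩
  obtain ⟨m1, -, -, m4, -, -, m7, m8, -⟩ := hMIR d S
  have h' := m1 h
  have a1 := h1 (4 * K) d (val d S) h.ok (hPOK d S h)
  have a2 := hPRI d S h
  have a3 := hREF d S h
  have a4 := hREF d.mir S.mir h'
  obtain ⟨a5, a6⟩ := hRAI d S h
  obtain ⟨a7, a8⟩ := hRAI d.mir S.mir h'
  have a9 := h2 (128 * E + 2 * K) d S h
  have a10 := h2 (128 * E + 2 * K) d.mir S.mir h'
  have a11 := hZG d S h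
  have e1 : d.mir.m = d.m := rfl
  have e2 : S.mir.J = S.J := rfl
  have e3 : #S.mir.DR * S.mir.W = #S.DR * S.W := rfl
  rw [e1, e2, e3, m4, m8] at a4
  rw [e1, e2, m4] at a7
  rw [e1, e2] at a8
  rw [e1, e2, m4, m7] at a10
  set n := (d.R - d.L).toNat
  set z := Nat.size (ht S)
  set V := (n + d.m) * (S.J + 1) * (z + 1) ^ 7 with hV
  have z1 : z ^ 3 ≤ (z + 1) ^ 7 :=
    le_trans (Nat.pow_le_pow_left (Nat.le_succ z) 3) (Nat.pow_le_pow_right (by omega) (by omega))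
  have z2 : 1 ≤ (z + 1) ^ 7 := Nat.one_le_pow _ _ (by omega)
  have v1 : d.m * (S.J + 1) * (z + 1) ^ 7 ≤ V :=
    Nat.mul_le_mul_right _ (Nat.mul_le_mul_right _ (Nat.le_add_left _ _))
  have v2 : d.m * (S.J + 1) * z ^ 3 ≤ V := le_trans (Nat.mul_le_mul_left _ z1) v1
  have v3 : d.m * (S.J + 1) ≤ V := le_trans (Nat.le_mul_of_pos_right _ z2) v1
  have v4 : (n + d.m) * z ^ 3 ≤ V :=
    Nat.mul_le_mul (Nat.le_mul_of_pos_right _ (by omega)) z1
  have p1 : LU.price d (val d S) ≤ 300 * (V + BB0 d S + BB1 d S + #S.DR * S.W) +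
      16 * (BC d S + BC d.mir S.mir) := by omega
  have p2 := Nat.mul_le_mul_left E p1
  have p3 : C2 * (128 * E + 2 * K + 1) ^ 2 * (BB0 d S + d.m * (S.J + 1) * (z + 1) ^ 7) ≤
      C2 * (128 * E + 2 * K + 1) ^ 2 * (V + BB0 d S + BB1 d S + #S.DR * S.W) :=
    Nat.mul_le_mul_left _ (by omega)
  have p4 : #(WM d S) + #(WM d.mir S.mir) ≤
      #((LK d).filter fun p => 1 ≤ (val d S).g p.1 p.2) + 2 * (V + BB0 d S + BB1 d S + #S.DR * S.W) +
        BC d S + BC d.mir S.mir := by omega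
  have p5 := Nat.mul_le_mul_left K p4
  generalize V + BB0 d S + BB1 d S + #S.DR * S.W = X at p2 p3 p5 ⊢
  generalize C2 * (128 * E + 2 * K + 1) ^ 2 = D at a9 a10 p3 ⊢
  generalize #((LK d).filter fun p => 1 ≤ (val d S).g p.1 p.2) = G at a1 p5
  have q1 : E * (300 * X + 16 * (BC d S + BC d.mir S.mir)) =
      300 * (E * X) + 16 * (E * BC d S) + 16 * (E * BC d.mir S.mir) := by ring
  have q2 : (128 * E + 2 * K) * BC d S = 128 * (E * BC d S) + 2 * (K * BC d S) := by ring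
  have q3 : (128 * E + 2 * K) * BC d.mir S.mir =
      128 * (E * BC d.mir S.mir) + 2 * (K * BC d.mir S.mir) := by ring
  have q4 : C1 * (4 * K) ^ 2 * LU.price d (val d S) = 16 * (E * LU.price d (val d S)) := by
    rw [hE]; ring
  have q5 : (1200 * E + 2 * K + D) * X = 1200 * (E * X) + 2 * (K * X) + D * X := by ring
  have q6 : K * (G + 2 * X + BC d S + BC d.mir S.mir) =
      K * G + 2 * (K * X) + K * BC d S + K * BC d.mir S.mir := by ring
  have q7 : 4 * K * G = 4 * (K * G) := by ring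
  rw [q5]
  rw [q1] at p2
  rw [q2] at a9
  rw [q3] at a10
  rw [q4, q7] at a1
  rw [q6] at p5
  omega

end Pool.Agent.P.MP_119182_lc.AG
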