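import Pool.Agent.P.MP_119182_lc.AG.IfaceB

/-! Step ALL. -/

set_option autoImplicit false

namespace Pool.Agent.P.MP_119182_lc.AG

open Finset
open scoped Classical
open NU (mr)
open LU (key tch up low isl Nx within beyond LK)
open IT (Marks One mq)
open AE (tl PP QM Hot Wit)
open WQ (Wt S_LQ ww gq)

theorem p_ALL (hABS : S_ABS) (hWARM : S_WARM) (hMIR : S_MIR) :
    S_ALL := by
  intro A wt R hw hT
  obtain ⟨C, hC⟩ := AF.link hw hT
  obtain ⟨C', hA⟩ := hABS (2 * C)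
  refine ⟨3 * C + C', fun σ J c Z c' Z' d S Q Q' ok hJ mk one mk' h1 h2 h3 => ?_⟩
  have l := hC σ J c Z d Q ok.ok hJ mk one
  have a := hA d S ok
  have okm := (hMIR d S).1 ok
  have sm := LP.p_SM.2.2.2.1 (σ + 1)
  obtain ⟨w1, w2⟩ := hWARM (σ + 1) d S Q Q' ok h1 h2 h3
  obtain ⟨w3, w4⟩ := hWARM (σ + 1) d.mir S.mir (mq Q) (mq Q') okm (fun j hj t c => h1 j hj t (-c))
    (fun a b => by
      change -S.cell S.J (mr a) = -S.cell S.J (mr b) ↔ _
      rw [neg_inj, h2]
      exact sm a b)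
    (fun t ht z hz => by
      obtain ⟨y, hy, rfl⟩ := mem_image.1 hz
      rcases h3 t ht y hy with h | h | h
      · exact Or.inl (mem_image_of_mem _ h)
      · exact Or.inr (Or.inl ((sm y (d.x t)).2 h))
      · refine Or.inr (Or.inr ?_)
        change 2 ≤ S.om S.J t (- -S.cell S.J (mr (mr y)))
        rwa [neg_neg, AE.ALLc.mr_mr])
  have u1 := TV.up ok.ok mk'
  have u2 := TV.up (d := d.mir) (Q := mq Q') okm.ok (IT.p_LAZY _ _ _ _ _ _ _ mk').2
  have k1 : (d.mir.R - d.mir.L).toNat = (d.R - d.L).toNat := by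
    change (mr d.L - mr d.R).toNat = _
    unfold mr
    omega
  have k2 : d.mir.m = d.m := rfl
  rw [k1, k2, TV.sw_mq] at u2
  rw [k2] at w3 w4
  have p1 : (d.R - d.L).toNat + d.m ≤
      ((d.R - d.L).toNat + d.m) * (S.J + 1) * (Nat.size (ht S) + 1) ^ 7 := by
    rw [mul_assoc]
    exact Nat.le_mul_of_pos_right _ (by positivity)
  generalize ((d.R - d.L).toNat + d.m) * (S.J + 1) * (Nat.size (ht S) + 1) ^ 7 = A' at *
  generalize TV.sw (d.R - d.L).toNat d.m Q' = V at *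
  generalize ww wt σ J d.L d.R d.m d.x Q = w at *
  generalize (d.R - d.L).toNat = n at *
  generalize #S.DR * S.W = D at *
  generalize #(WM d S) = W1 at *
  generalize #(WM d.mir S.mir) = W2 at *
  obtain ⟨X, hX⟩ : ∃ X, X = A' + BB0 d S + BB1 d S + D + V + w := ⟨_, rfl⟩
  rw [← hX]
  have q1 := l.trans (Nat.add_le_add_left (Nat.mul_le_mul_left C
    (show _ ≤ 3 * X + 2 * (W1 + W2) by omega)) _)
  have q2 : C' * (A' + BB0 d S + BB1 d S + D) ≤ C' * X := Nat.mul_le_mul_left _ (by omega)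
  have e1 : C * (3 * X + 2 * (W1 + W2)) = 3 * (C * X) + 2 * C * (W1 + W2) := by ring
  have e2 : (3 * C + C') * X = 3 * (C * X) + C' * X := by ring
  omega

end Pool.Agent.P.MP_119182_lc.AG
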