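import Pool.Agent.P.MP_119182_lc.AG.IfaceB

/-! Step AVQ. -/

set_option autoImplicit false

namespace Pool.Agent.P.MP_119182_lc.AG

open Finset
open scoped Classical
open NU (mr)
open LU (key tch up low isl Nx within beyond LK)
open IT (Marks One mq)
open AE (tl PP QM Hot Wit)
open WQ (Wt S_LQ ww gq)

theorem p_AVQ :
    S_AVQ := by
  intro A B wt R G hw hG hm u m σ T' a s v F hW hu
  have e : ∀ h : ℕ, AF.SQ wt σ (T' + 1) m (fun i => (a i : ℤ) + h) s {0} =
      ∑ i ∈ range m, ∑ j ∈ Ioo σ (T' + 1),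
        if (a i + h) / 2 ^ j ≠ (a (AF.pr s {0} i) + h) / 2 ^ j then wt (j - σ) else 0 := by
    intro h
    unfold AF.SQ
    refine sum_congr rfl fun i _ => sum_congr rfl fun j _ => if_congr ?_ rfl rfl
    have k : ∀ w : ℕ, ((w : ℤ) + h) / 2 ^ j = (((w + h) / 2 ^ j : ℕ) : ℤ) := fun w => by
      push_cast
      rfl
    simp only [k, ne_eq, Nat.cast_inj]
  simp only [e]
  rw [sum_comm]
  have k1 : ∑ i ∈ range m, (G 1 + 1 +
      if i ∈ F then G (Nat.log 2 (Nat.dist (a i) (a (s i)) / 2 ^ u + 1)) else 0) ≤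
      (G 1 + 1) * m + ∑ i ∈ F, G (Nat.log 2 (Nat.dist (a i) (a (s i)) / 2 ^ u + 1)) := by
    rw [sum_add_distrib, sum_const, card_range, smul_eq_mul, mul_comm, ← sum_filter]
    exact Nat.add_le_add_left (sum_le_sum_of_subset fun i hi => (mem_filter.1 hi).2) _
  refine le_trans ?_ (Nat.mul_le_mul_left _ (Nat.mul_le_mul_left _ k1))
  rw [mul_sum, mul_sum]
  refine sum_le_sum fun i hi => (WQ.avg hw σ T' (a i) (a (AF.pr s {0} i)) _ rfl).trans
    (Nat.mul_le_mul_left _ ?_)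
  rw [mul_assoc]
  refine Nat.mul_le_mul_left _ ((hG _).trans (Nat.mul_le_mul_left _ ?_))
  by_cases z : i = 0
  · subst z
    rw [AF.pr, if_pos (mem_singleton_self 0), Nat.zero_sub, Nat.dist_self, Nat.zero_div]
    have := hm (show Nat.log 2 (0 + 1) ≤ 1 by norm_num)
    omega
  rw [AF.pr, if_neg fun h => z (mem_singleton.1 h)]
  by_cases g : i ∈ F
  · rw [if_pos g]
    have := hm (Nat.log_mono_right (b := 2) (Nat.add_le_add_right
      (Nat.div_le_div_left (a := Nat.dist (a i) (a (s i)))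
        (Nat.pow_le_pow_right two_pos hu) (Nat.two_pow_pos u)) 1))
    omega
  · rw [if_neg g]
    obtain ⟨-, w2, w3⟩ := hW.2 i (mem_range.1 hi) fun h => (mem_insert.1 h).elim z g
    have w4 : 2 ^ v i ≤ 2 ^ σ := Nat.pow_le_pow_right two_pos (w2.trans hu)
    have w5 : Nat.dist (a i) (a (s i)) / 2 ^ σ ≤ 1 :=
      (Nat.div_le_div_right (by omega)).trans (Nat.div_self (Nat.two_pow_pos σ)).le
    have w6 : Nat.log 2 (Nat.dist (a i) (a (s i)) / 2 ^ σ + 1) ≤ 1 :=
      (Nat.log_mono_right (Nat.succ_le_succ w5)).trans (by norm_num)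
    have := hm w6
    omega

end Pool.Agent.P.MP_119182_lc.AG
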