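import Pool.Agent.P.MP_119182_lc.AG.Iface

/-! Step BD. -/

set_option autoImplicit false

namespace Pool.Agent.P.MP_119182_lc.AG

open Finset
open scoped Classical
open NU (Run mr)
open LU (key tch up low isl Nx within beyond LK)

theorem p_BD :
    S_BD := by
  intro d S h
  have n1 : ∀ j k a b, j ≤ k → S.cell j a = S.cell j b → S.cell k a = S.cell k b := by
    intro j k a b hjk e
    induction k, hjk using Nat.le_induction with
    | base => exact e
    | succ k _ ih => exact h.nest k a b ih
  have n2 : ∀ j a b c, a ≤ b → b ≤ c → S.cell j a = S.cell j c →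
      S.cell j a = S.cell j b ∧ S.cell j b = S.cell j c := by
    intro j a b c h1 h2 e
    have := h.mono j h1
    have := h.mono j h2
    omega
  have n3 : ∀ a b, pt d a → pt d b → ∀ j,
      bd S a b ≤ j ↔ S.cell (j + 1) a = S.cell (j + 1) b := by
    intro a b ha hb j
    have m : S.cell (bd S a b + 1) a = S.cell (bd S a b + 1) b :=
      Nat.sInf_mem (s := {j | S.cell (j + 1) a = S.cell (j + 1) b}) ⟨S.J, h.top a b ha hb⟩
    exact ⟨fun hj => n1 _ _ a b (Nat.succ_le_succ hj) m, fun e => Nat.sInf_le e⟩
  refine ⟨n1, n2, fun a b ha hb => ⟨?_, (n3 a b ha hb _).2 (h.top a b ha hb), n3 a b ha hb,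
    fun hab j => ?_⟩, fun a b c ha hc h1 h2 => ?_⟩
  · exact le_antisymm ((n3 a b ha hb _).2 ((n3 b a hb ha _).1 le_rfl).symm)
      ((n3 b a hb ha _).2 ((n3 a b ha hb _).1 le_rfl).symm)
  · rcases j with _ | j
    · exact ⟨fun _ e => hab (h.inj a b e), fun _ => Nat.zero_le _⟩
    · have := n3 a b ha hb j
      constructor
      · intro x e
        have := this.2 e
        omega
      · intro x
        by_contra y
        exact x (this.1 (by omega))
  · have hb : pt d b := ⟨le_trans ha.1 h1, le_trans h2 hc.2⟩
    apply le_antisymm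
    · exact (n3 a c ha hc _).2 (((n3 a b ha hb _).1 (le_max_left _ _)).trans
        ((n3 b c hb hc _).1 (le_max_right _ _)))
    · have := n2 _ a b c h1 h2 ((n3 a c ha hc _).1 le_rfl)
      exact max_le ((n3 a b ha hb _).2 this.1) ((n3 b c hb hc _).2 this.2)

end Pool.Agent.P.MP_119182_lc.AG
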