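import Pool.Agent.P.MP_119182_lc.AG.IfaceB
import Pool.Agent.P.MP_119182_lc.AE.TBUD

/-! The weights of the top band with pending items. -/

set_option autoImplicit false

namespace Pool.Agent.P.MP_119182_lc.ADBud

open Finset
open scoped Classical
open NU (sg cc it dst pass jmp MM)

section
variable (y : ℕ → ℤ) (S : Finset ℤ) (m T : ℕ) (pd : ℕ → Finset ℤ)

/-- The weight of an item of the top band, two more while it is pending. -/
noncomputable def omP (t : ℕ) (c : ℤ) : ℕ := omT y S m T t c + if c ∈ pd t then 2 else 0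

theorem omT_le_omP (t : ℕ) (c : ℤ) : omT y S m T t c ≤ omP y S m T pd t c := Nat.le_add_right _ _

theorem omP_pend {t : ℕ} {c : ℤ} (h : c ∈ pd t) : 2 ≤ omP y S m T pd t c := by
  rw [omP, if_pos h]
  exact Nat.le_add_left _ _

theorem omP_sum (t : ℕ) (hp : #(pd t) ≤ 2 ^ 2 ^ T) (I : Finset ℤ) :
    ∑ c ∈ I, omP y S m T pd t c ≤ 2 ^ (3 * 2 ^ T + 2) := by
  have h1 := omT_sum y S m T t I
  have h2 : ∑ c ∈ I, (if c ∈ pd t then 2 else 0) ≤ 2 * #(pd t) := by
    rw [← sum_filter, sum_const, smul_eq_mul, mul_comm]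
    exact Nat.mul_le_mul_left _ (card_le_card fun c hc => (mem_filter.1 hc).2)
  have h3 : 2 ^ 2 ^ T ≤ 2 ^ (3 * 2 ^ T) := Nat.pow_le_pow_right two_pos (by omega)
  unfold omP
  rw [sum_add_distrib]
  rw [pow_succ] at h1
  rw [pow_succ, pow_succ]
  omega

theorem omP_eq {t : ℕ} {c : ℤ} (h : c ≠ it (T + 1) (y t)) (e : c ∈ pd (t + 1) ↔ c ∈ pd t) :
    omP y S m T pd (t + 1) c = omP y S m T pd t c := by
  rw [omP, omP, omT_step y S m T t c h, if_congr e rfl rfl]

theorem omP_le {t : ℕ} {c : ℤ} (h : c ≠ it (T + 1) (y t)) (e : c ∈ pd (t + 1) → c ∈ pd t) :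
    omP y S m T pd (t + 1) c ≤ omP y S m T pd t c := by
  rw [omP, omP, omT_step y S m T t c h]
  split_ifs with a b
  · exact le_rfl
  · exact absurd (e a) b
  · omega
  · exact le_rfl

/-- The ratio of the top band. -/
noncomputable def BP (t : ℕ) (z : ℤ) : ℕ :=
  Nat.log 2 (2 ^ (3 * 2 ^ T + 2)) - Nat.log 2 (omP y S m T pd t (it (T + 1) z))

theorem BP_le (t : ℕ) (z : ℤ) : BP y S m T pd t z ≤ BT y S m T t z + 1 := by
  have h := Nat.log_mono_right (b := 2) (omT_le_omP y S m T pd t (it (T + 1) z))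
  rw [BP, BT, Nat.log_pow one_lt_two, Nat.log_pow one_lt_two]
  omega

/-- The budget with the pending items. -/
theorem budgetP (n : ℕ) (hS : ∀ i < m, y i ∈ S) (hn : #S ≤ n) :
    ∑ s ∈ range m, (∑ j ∈ range (T + 1), B y S m (2 ^ T) j s (y s) + BP y S m T pd s (y s)) +
      ∑ s ∈ range m, (∑ j ∈ range (T + 1), B y S m (2 ^ T) j (s + 1) (y s) +
        BP y S m T pd (s + 1) (y s)) ≤ 2 * (m * (T + 7)) + 24 * MM y n m T := by
  have h0 := budgetT y S m T n hS hn
  have h1 := sum_le_sum (s := range m) fun s _ => BP_le y S m T pd s (y s)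
  have h2 := sum_le_sum (s := range m) fun s _ => BP_le y S m T pd (s + 1) (y s)
  rw [sum_add_distrib, sum_const, card_range, smul_eq_mul] at h1 h2
  rw [sum_add_distrib, sum_add_distrib] at h0 ⊢
  have e : m * (T + 7) = m * (T + 6) + m := by ring
  omega

end

end Pool.Agent.P.MP_119182_lc.ADBud

namespace Pool.Agent.P.MP_119182_lc.AG

open Finset
open scoped Classical
open NU (mr)

section
variable (d : NU.Run) (T : ℕ) (pd : ℕ → Finset ℤ) (DR : Finset ℕ) (dr : ℕ → ℤ)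

/-- The system cut at tier `T + 1`, with pending items. -/
noncomputable def budSys : Sys where
  J := T + 1
  W := 3 * 2 ^ T + 3
  cell := fun j z => if j ≤ T + 1 then NU.it j z else 0
  om := fun j t c => if j ≤ T then ADBud.om d.x d.keys d.m (2 ^ T) j t c
    else if j = T + 1 then ADBud.omP d.x d.keys d.m T pd t c else 0
  SG := fun j t z => if j ≤ T then ADBud.SG d.x d.keys d.m (2 ^ T) j t (NU.it (j + 1) z)
    else 2 ^ (3 * 2 ^ T + 2)
  DR := DR
  dr := dr

theorem bud_cell {j : ℕ} (hj : j ≤ T + 1) : (budSys d T pd DR dr).cell j = NU.it j :=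
  funext fun _ => if_pos hj

theorem bud_cell' {j : ℕ} (hj : T + 1 < j) (z : ℤ) :
    (budSys d T pd DR dr).cell j z = 0 := if_neg (not_le.2 hj)

theorem bud_om {j : ℕ} (hj : j ≤ T) :
    (budSys d T pd DR dr).om j = ADBud.om d.x d.keys d.m (2 ^ T) j :=
  funext fun _ => funext fun _ => if_pos hj

theorem bud_omT : (budSys d T pd DR dr).om (T + 1) = ADBud.omP d.x d.keys d.m T pd :=
  funext fun _ => funext fun _ => (if_neg (by omega)).trans (if_pos rfl)

theorem bud_om' {j : ℕ} (hj : T + 1 < j) (t : ℕ) (c : ℤ) :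
    (budSys d T pd DR dr).om j t c = 0 := (if_neg (by omega)).trans (if_neg (by omega))

theorem bud_SG {j : ℕ} (hj : j ≤ T) (t : ℕ) (z : ℤ) :
    (budSys d T pd DR dr).SG j t z = ADBud.SG d.x d.keys d.m (2 ^ T) j t (NU.it (j + 1) z) :=
  if_pos hj

theorem bud_SG' {j : ℕ} (hj : T < j) (t : ℕ) (z : ℤ) :
    (budSys d T pd DR dr).SG j t z = 2 ^ (3 * 2 ^ T + 2) := if_neg (not_le.2 hj)

theorem bud_sm (hp : ∀ t, #(pd t) ≤ 2 ^ 2 ^ T) (j t : ℕ) (z a b : ℤ)
    (ha : (budSys d T pd DR dr).cell (j + 1) a = (budSys d T pd DR dr).cell (j + 1) z)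
    (hb : (budSys d T pd DR dr).cell (j + 1) b = (budSys d T pd DR dr).cell (j + 1) z) :
    sm (budSys d T pd DR dr) j t ((budSys d T pd DR dr).cell j a)
      ((budSys d T pd DR dr).cell j b) ≤ (budSys d T pd DR dr).SG j t z := by
  rcases Nat.lt_or_ge T j with h | h
  · rw [bud_SG' d T pd DR dr h, sm]
    rcases Nat.eq_or_lt_of_le (show T + 1 ≤ j from h) with rfl | h'
    · rw [bud_omT]
      exact ADBud.omP_sum _ _ _ _ _ _ (hp t) _
    · rw [sum_eq_zero fun c _ => bud_om' d T pd DR dr h' t c]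
      exact Nat.zero_le _
  · rw [bud_cell d T pd DR dr (by omega : j + 1 ≤ T + 1)] at ha hb
    rw [bud_SG d T pd DR dr h, sm, bud_om d T pd DR dr h,
      bud_cell d T pd DR dr (by omega : j ≤ T + 1)]
    exact ADBud.sm_le_SG _ _ _ _ t (ADBud.it_mem.2 ha) (ADBud.it_mem.2 hb)

theorem bud_ok (hd : d.OK) (hl : d.L < d.R) (hp : ∀ t, #(pd t) ≤ 2 ^ 2 ^ T)
    (hi : ∀ t < d.m, ∀ c ∈ pd (t + 1), c ≠ NU.it (T + 1) (d.x t) → c ∈ pd t)
    (ho : ∀ t < d.m, ∀ c ∈ pd t, c ≠ NU.it (T + 1) (d.x t) → ¬ (t ∈ DR ∧ c = dr t) →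
      c ∈ pd (t + 1)) : OK d (budSys d T pd DR dr) := by
  have hq : ∀ j, (0 : ℤ) < 2 ^ NU.sg j := fun j => by positivity
  refine ⟨hd, hl, fun j a b h => ?_, fun j a b h => ?_, fun a b h => ?_, fun a b _ _ => ?_,
    Nat.le_add_left _ _ |>.trans' (by norm_num), fun j t c ht h hn => ?_, fun j t c ht h => ?_,
    fun j t a b _ _ h => ?_, fun j t z a b _ _ ha hb => bud_sm d T pd DR dr hp j t z a b ha hb⟩
  · rcases Nat.lt_or_ge (T + 1) j with hj | hj
    · rw [bud_cell' d T pd DR dr hj, bud_cell' d T pd DR dr hj]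
    · rw [bud_cell d T pd DR dr hj]
      exact Int.ediv_le_ediv (hq j) h
  · rcases Nat.lt_or_ge (T + 1) (j + 1) with hj | hj
    · rw [bud_cell' d T pd DR dr hj, bud_cell' d T pd DR dr hj]
    · rw [bud_cell d T pd DR dr (by omega : j ≤ T + 1)] at h
      rw [bud_cell d T pd DR dr hj]
      exact ADBud.up_eq h
  · rw [bud_cell d T pd DR dr (Nat.zero_le _)] at h
    simpa [NU.it, NU.sg] using h
  · exact (bud_cell' d T pd DR dr (Nat.lt_succ_self _) a).trans
      (bud_cell' d T pd DR dr (Nat.lt_succ_self _) b).symm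
  · rcases Nat.lt_or_ge T j with hj | hj
    · rcases Nat.eq_or_lt_of_le (show T + 1 ≤ j from hj) with rfl | h'
      · rw [bud_cell d T pd DR dr le_rfl] at h
        rw [bud_omT]
        exact ADBud.omP_eq _ _ _ _ _ h
          ⟨fun a => hi t ht c a h, fun a => ho t ht c a h fun b => hn ⟨rfl, b.1, b.2⟩⟩
      · rw [bud_om' d T pd DR dr h', bud_om' d T pd DR dr h']
    · rw [bud_cell d T pd DR dr (by omega : j ≤ T + 1)] at h
      rw [bud_om d T pd DR dr hj]
      exact ADBud.om_step _ _ _ _ j t c h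
  · rcases Nat.lt_or_ge T j with hj | hj
    · rcases Nat.eq_or_lt_of_le (show T + 1 ≤ j from hj) with rfl | h'
      · rw [bud_cell d T pd DR dr le_rfl] at h
        rw [bud_omT]
        exact ADBud.omP_le _ _ _ _ _ h fun a => hi t ht c a h
      · rw [bud_om' d T pd DR dr h', bud_om' d T pd DR dr h']
    · rw [bud_cell d T pd DR dr (by omega : j ≤ T + 1)] at h
      rw [bud_om d T pd DR dr hj]
      exact (ADBud.om_step _ _ _ _ j t c h).le
  · refine (bud_sm d T pd DR dr hp j t b a b h rfl).trans_lt ?_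
    change _ < 2 ^ (3 * 2 ^ T + 3)
    rcases Nat.lt_or_ge T j with hj | hj
    · rw [bud_SG' d T pd DR dr hj]
      exact Nat.pow_lt_pow_right one_lt_two (by omega)
    · rw [bud_SG d T pd DR dr hj]
      exact ADBud.SG_lt _ _ _ _ (NU.Avg.sg_mono (show j + 1 ≤ T + 1 by omega)) t _

theorem bud_BB (n : ℕ) (hd : d.OK) (hR : d.R = d.L + n + 1) :
    BB0 d (budSys d T pd DR dr) + BB1 d (budSys d T pd DR dr) ≤
      2 * (d.m * (T + 7)) + 24 * NU.MM d.x n d.m T := by
  have a1 := ADBud.budgetP d.x d.keys d.m T pd n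
    (fun i hi => mem_Ioo.2 (hd.step i hi).mem) (by rw [NU.Run.keys, Int.card_Ioo]; omega)
  refine le_trans (le_of_eq ?_) a1
  unfold BB0 BB1
  change ∑ s ∈ range d.m, ∑ j ∈ range (T + 1 + 1), _ +
    ∑ s ∈ range d.m, ∑ j ∈ range (T + 1 + 1), _ = _
  congr 1 <;> refine sum_congr rfl fun s _ => ?_ <;> rw [sum_range_succ] <;> congr 1
  · refine sum_congr rfl fun j hj => ?_
    have h : j ≤ T := Nat.lt_succ_iff.1 (mem_range.1 hj)
    rw [B0, ADBud.B, bud_SG d T pd DR dr h, bud_om d T pd DR dr h,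
      bud_cell d T pd DR dr (by omega : j ≤ T + 1)]
  · rw [B0, ADBud.BP, bud_SG' d T pd DR dr (Nat.lt_succ_self _), bud_omT,
      bud_cell d T pd DR dr le_rfl]
  · refine sum_congr rfl fun j hj => ?_
    have h : j ≤ T := Nat.lt_succ_iff.1 (mem_range.1 hj)
    rw [B1, ADBud.B, bud_SG d T pd DR dr h, bud_om d T pd DR dr h,
      bud_cell d T pd DR dr (by omega : j ≤ T + 1)]
  · rw [B1, ADBud.BP, bud_SG' d T pd DR dr (Nat.lt_succ_self _), bud_omT,
      bud_cell d T pd DR dr le_rfl]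

end

theorem p_BUD :
    S_BUD := by
  refine ⟨24, fun T n d pd DR dr hd hR hT hp hs => ?_⟩
  have h4 : 2 ^ 2 ≤ 2 ^ T := Nat.pow_le_pow_right two_pos hT
  refine ⟨budSys d T pd DR dr, fun t c => 2 ≤ ADBud.omT d.x d.keys d.m T t c, rfl, ?_, rfl,
    bud_ok d T pd DR dr hd (by omega) hp (fun t ht c a b => (hs t ht c b).1 a)
      (fun t ht c a b e => ((hs t ht c b).2 a).resolve_right e), fun j hj t c => ?_, fun a => ?_,
    fun c => ?_, fun t c _ h => ?_, fun r t a b e f => ?_, fun t c h => ?_,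
    (bud_BB d T pd DR dr n hd hR).trans ?_⟩
  · change 3 * 2 ^ T + 3 ≤ _
    omega
  · rw [bud_om d T pd DR dr (Nat.lt_succ_iff.1 hj)]
    exact ADBud.om_pos _ _ _ _ j t c
  · exact congrFun (bud_cell d T pd DR dr le_rfl) a
  · change ¬ 2 ≤ ADBud.omT d.x d.keys d.m T 0 c
    rw [ADBud.omT_zero]
    omega
  · change 2 ≤ ADBud.omT d.x d.keys d.m T (t + 1) c ↔ 2 ≤ ADBud.omT d.x d.keys d.m T t c
    rw [ADBud.omT_step _ _ _ _ t c h]
  · exact ADBud.omT_hot _ _ _ _ (by omega) (mem_Ioo.2 (hd.step r (a.trans b)).mem) a b e f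
  · change 2 ≤ (budSys d T pd DR dr).om (T + 1) t c
    rw [bud_omT]
    rcases h with h | h
    · exact h.trans (ADBud.omT_le_omP _ _ _ _ _ t c)
    · exact ADBud.omP_pend _ _ _ _ _ h
  · have a3 : d.m * (T + 7) ≤ d.m * (4 * (T + 2)) := Nat.mul_le_mul_left _ (by omega)
    rw [mul_left_comm] at a3
    omega

end Pool.Agent.P.MP_119182_lc.AG
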