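import Pool.Agent.P.MP_119182_lc.AG.Iface

/-! Step DQ. -/

set_option autoImplicit false

namespace Pool.Agent.P.MP_119182_lc.AG

open Finset
open scoped Classical
open NU (Run mr)
open LU (key tch up low isl Nx within beyond LK)

theorem dq_four (T : Finset ℤ)
    (h : ∀ a ∈ T, ∀ b ∈ T, ∀ c ∈ T, ∀ e ∈ T, a < b → b < c → c < e → False) : #T ≤ 3 := by
  by_contra hc
  have hk : 4 ≤ #T := by omega
  let f := T.orderEmbOfFin rfl
  have m : ∀ i, f i ∈ T := fun i => T.orderEmbOfFin_mem rfl i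
  exact h _ (m ⟨0, by omega⟩) _ (m ⟨1, by omega⟩) _ (m ⟨2, by omega⟩) _ (m ⟨3, by omega⟩)
    (f.strictMono (by simp [Fin.lt_def])) (f.strictMono (by simp [Fin.lt_def]))
    (f.strictMono (by simp [Fin.lt_def]))

theorem dq_add (S : Sys) (j t : ℕ) (a b a' b' c : ℤ) (h1 : c ≤ a) (h2 : a ≤ b) (h3 : b < a')
    (h4 : a' ≤ b') : sm S j t a b + sm S j t a' b' ≤ sm S j t c b' := by
  unfold sm
  rw [← sum_union]
  · refine sum_le_sum_of_subset fun z hz => ?_
    simp only [mem_union, mem_Icc] at hz ⊢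
    omega
  · rw [disjoint_left]
    intro z h5 h6
    simp only [mem_Icc] at h5 h6
    omega

theorem dq_mono (S : Sys) (j t : ℕ) (a b b' : ℤ) (h : b ≤ b') :
    Nat.log 2 (sm S j t a b) ≤ Nat.log 2 (sm S j t a b') :=
  Nat.log_mono_right (sum_le_sum_of_subset (Icc_subset_Icc le_rfl h))

/-- The data of a bad link above another one with the same band and minimum time. -/
theorem dq_one (hGM : S_GM) (hFZ : S_FZ) (hORD : S_ORD) (hLNK : S_LNK) (d : Run) (S : Sys)
    (h : OK d S) (t j s : ℕ) (w u : ℤ) (bw : bad d S t w) (bu : bad d S t u) (hl : w < u)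
    (jw : bj d S t w = j) (ju : bj d S t u = j) (sw : st d S t w = s) (su : st d S t u = s) :
    S.cell j (d.rp t w) ≤ S.cell j (low d t u) ∧ S.cell j (low d t u) ≤ S.cell j u ∧
    S.cell j u ≤ S.cell j (d.rp t u) ∧ S.cell j (low d t u) < S.cell j (d.rp t u) ∧
    S.cell j (d.x t) < S.cell j (low d t u) ∧
    QQ d S t u = j * S.W + max (Nat.log 2 (S.om j s (S.cell j (d.x t))))
      (Nat.log 2 (sm S j t (S.cell j (d.x t) + 1) (S.cell j u - 1))) ∧
    AA d S t u = j * S.W + max (Nat.log 2 (S.om j s (S.cell j (d.x t))))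
      (Nat.log 2 (sm S j t (S.cell j (d.x t) + 1) (S.cell j (d.rp t u)))) ∧
    DD d S t u = AA d S t u - QQ d S t u ∧
    gp d S t u = AA d S t u - (j * S.W +
      Nat.log 2 (sm S j t (S.cell j (low d t u)) (S.cell j (d.rp t u)))) := by
  obtain ⟨⟨a1, a2, -⟩, a3, a4⟩ := hLNK d S h t u bu.1
  obtain ⟨b1, -⟩ := a3 bu.2.1
  obtain ⟨c1, c2, c3, c4⟩ := a4 bu
  have f := (hFZ d h.ok).2.2.2.2.2.2.2 t w u bw.1 bu.1 hl
  have g1 : w < d.rp t w :=
    ((h.ok.tree t bw.1.1.1.le).bnd w bw.1.1.2.1.1.1 bw.1.1.2.1.1.2).2.2.1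
  have g2 : u < d.rp t u := ((h.ok.tree t bu.1.1.1.le).bnd u bu.1.1.2.1.1.1 bu.1.1.2.1.1.2).2.2.1
  have jp : bj d S t (low d t u) = j := b1.trans ju
  have o1 := (hORD d S h t w (low d t u) bw.1.1 a1 (by omega) (jw.trans jp.symm)).2.2
  have o2 := (hORD d S h t (low d t u) u a1 bu.1.1 a2.le b1).2.2
  have sp : st d S t (low d t u) = s := by omega
  have k1 := (hGM d S h t (low d t u) bu.1.1.1).2.2.2.2.1.2.2
  have k2 := (hGM d S h t u bu.1.1.1).2.2.2.2.1.2.2
  rw [sp] at k1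
  rw [su] at k2
  unfold lo it at k1 k2
  rw [jp] at k1
  rw [ju] at k2
  have p1 : ∀ e, pf d S t (low d t u) e = j * S.W + max (Nat.log 2 (S.om j s (S.cell j (d.x t))))
      (Nat.log 2 (sm S j t (S.cell j (d.x t) + 1) e)) := fun e => by
    unfold pf it; rw [jp, ← k1]
  have p2 : ∀ e, pf d S t u e = j * S.W + max (Nat.log 2 (S.om j s (S.cell j (d.x t))))
      (Nat.log 2 (sm S j t (S.cell j (d.x t) + 1) e)) := fun e => by
    unfold pf it; rw [ju, ← k2]
  unfold it at c2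
  rw [ju] at c1 c2 c3 c4
  refine ⟨h.mono j f, h.mono j a2.le, h.mono j g2.le, c1, c2, ?_, ?_, ?_, ?_⟩
  · unfold QQ; rw [p2, ju]
  · rw [c3, p1]
  · unfold DD QQ; rw [p1, p2]
  · unfold gp; rw [c4]

theorem p_DQ (hFF : S_FF) (hGM : S_GM) (hFZ : S_FZ) (hTP : S_TP) (hORD : S_ORD) (hLNK : S_LNK) :
    S_DQ := by
  intro d S h t j s i a
  set T := (BAD d S).filter fun p => p.1 = t ∧ bj d S p.1 p.2 = j ∧ st d S p.1 p.2 = s ∧
      sc d S p.1 p.2 = i ∧ an d S p.1 p.2 = a with hT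
  have mem : ∀ u ∈ T.image Prod.snd, bad d S t u ∧ bj d S t u = j ∧ st d S t u = s ∧
      sc d S t u = i ∧ an d S t u = a := by
    intro u hu
    obtain ⟨p, hp, rfl⟩ := mem_image.1 hu
    obtain ⟨h1, h2, h3⟩ := mem_filter.1 hp
    have h4 := (mem_filter.1 h1).2
    rw [h2] at h3 h4
    exact ⟨h4, h3⟩
  have inj : #(T.image Prod.snd) = #T := by
    refine card_image_of_injOn fun p hp q hq e => ?_
    have h1 := (mem_filter.1 (mem_coe.1 hp)).2.1
    have h2 := (mem_filter.1 (mem_coe.1 hq)).2.1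
    exact Prod.ext (h1.trans h2.symm) e
  have key : #(T.image Prod.snd) ≤ 3 := by
    refine dq_four _ fun u0 m0 u1 m1 u2 m2 u3 m3 l1 l2 l3 => ?_
    obtain ⟨b0, j0, s0, -, -⟩ := mem u0 m0
    obtain ⟨b1, j1, s1, i1, n1⟩ := mem u1 m1
    obtain ⟨b2, j2, s2, -, -⟩ := mem u2 m2
    obtain ⟨b3, j3, s3, i3, n3⟩ := mem u3 m3
    obtain ⟨-, x2, x3, x4, x5, x6, x7, x8, x9⟩ :=
      dq_one hGM hFZ hORD hLNK d S h t j s u0 u1 b0 b1 l1 j0 j1 s0 s1
    obtain ⟨y1, -, -, y4, -⟩ := dq_one hGM hFZ hORD hLNK d S h t j s u1 u2 b1 b2 l2 j1 j2 s1 s2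
    obtain ⟨z1, z2, z3, z4, z5, z6, z7, z8, z9⟩ :=
      dq_one hGM hFZ hORD hLNK d S h t j s u2 u3 b2 b3 l3 j2 j3 s2 s3
    have q1 := dq_mono S j t (S.cell j (d.x t) + 1) (S.cell j u1 - 1) (S.cell j (d.rp t u1))
      (by omega)
    have q2 := dq_mono S j t (S.cell j (d.x t) + 1) (S.cell j (d.rp t u1)) (S.cell j u3 - 1)
      (by omega)
    have q3 := dq_mono S j t (S.cell j (d.x t) + 1) (S.cell j u3 - 1) (S.cell j (d.rp t u3))
      (by omega)
    unfold sc at i1 i3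
    unfold an sc at n1 n3
    rw [i1] at n1
    rw [i3] at n3
    rcases Nat.eq_zero_or_pos (DD d S t u1) with e | e
    · have i0 : i = 0 := by rw [← i1, e]; rfl
      have e3 : DD d S t u3 = 0 := Nat.size_eq_zero.1 (i3.trans i0)
      obtain ⟨g1, w1⟩ := b1.2.2.resolve_right (by omega)
      obtain ⟨g3, w3⟩ := b3.2.2.resolve_right (by omega)
      unfold mw at w1 w3
      rw [j1] at w1
      rw [j3] at w3
      rw [i0] at n1 n3
      simp only [Nat.zero_sub, pow_zero, Nat.div_one] at n1 n3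
      have r1 := Nat.pow_le_of_le_log (b := 2) (x := a - j * S.W)
        (Nat.ne_of_gt w1) (by omega)
      have r3 := Nat.pow_le_of_le_log (b := 2) (x := a - j * S.W)
        (Nat.ne_of_gt w3) (by omega)
      have r := dq_add S j t _ _ _ _ (S.cell j (d.x t) + 1) (by omega) x4.le
        (show S.cell j (d.rp t u1) < S.cell j (low d t u3) by omega) z4.le
      have r4 := Nat.le_log_of_pow_le (b := 2) (x := a - j * S.W + 1)
        (y := sm S j t (S.cell j (d.x t) + 1) (S.cell j (d.rp t u3))) (by norm_num)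
        (by rw [pow_succ]; omega)
      omega
    · have i0 : 0 < i := by rw [← i1]; exact Nat.size_pos.2 e
      have r1 : 2 ^ (i - 1) ≤ DD d S t u1 := Nat.lt_size.1 (by omega)
      have r2 : QQ d S t u1 + 2 ^ (i - 1) ≤ QQ d S t u3 := by omega
      have r3 := Nat.div_le_div_right (c := 2 ^ (i - 1)) r2
      rw [Nat.add_div_right _ (by positivity)] at r3
      omega
  omega

end Pool.Agent.P.MP_119182_lc.AG
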