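import Pool.Agent.P.MP_119182_lc.AG.IfaceB
import Pool.Agent.P.MP_119182_lc.AE.TEND

/-! Step END. -/

set_option autoImplicit false

namespace Pool.Agent.P.MP_119182_lc.AG

open Finset
open scoped Classical
open NU.Avg (last_spec)
open AE (Wit end_new)
open WQ (gq)

theorem end_wit (a : ℕ → ℕ) (i j u : ℕ) (h1 : 1 ≤ i) (h : wset a i j ≤ 2 ^ u) :
    ∃ (s v : ℕ) (f : Prop), s < i ∧ #((Ioc s i).image a) ≤ 2 ^ u ∧
      v ≤ Nat.log 2 (wset a i j + Nat.dist (a i) j) + 1 ∧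
      (¬ f → v ≤ u ∧ #((Ioc s i).image a) + Nat.dist (a i) (a s) ≤ 2 ^ v) ∧
      (f → (u ≤ Nat.log 2 (wset a i j + Nat.dist (a i) j) ∧ a s = j) ∨
        ((¬ ∃ r < i, a r = a i) ∧ #((Ioc 0 i).image a) ≤ 2 ^ u)) := by
  have k0 := Nat.lt_pow_succ_log_self (b := 2) (by norm_num) (wset a i j + Nat.dist (a i) j)
  have k1 : ∀ x, x ≤ 2 ^ u → x ≤ wset a i j + Nat.dist (a i) j →
      x ≤ 2 ^ min u (Nat.log 2 (wset a i j + Nat.dist (a i) j) + 1) := fun x x1 x2 => by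
    rcases le_total u (Nat.log 2 (wset a i j + Nat.dist (a i) j) + 1) with e | e
    · rwa [min_eq_left e]
    · rw [min_eq_right e]
      exact x2.trans k0.le
  by_cases hj : ∃ r < i, a r = j
  · obtain ⟨r, hr, rfl⟩ := hj
    refine ⟨lastIdx a i (a r), min u _, 2 ^ u < wset a i (a r) + Nat.dist (a i) (a r),
      (last_spec hr).1, h, min_le_right _ _, fun c => ⟨min_le_left _ _, ?_⟩,
      fun c => Or.inl ⟨Nat.le_log_of_pow_le one_lt_two c.le, (last_spec (a := a) hr).2⟩⟩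
    rw [(last_spec (a := a) hr).2]
    exact k1 _ (not_lt.1 c) le_rfl
  · have h6 : lastIdx a i j = 0 := by
      rw [lastIdx, filter_eq_empty_iff.2 fun s hs e => hj ⟨s, mem_range.1 hs, e⟩]
      rfl
    have h7 : wset a i j = #((Ioc 0 i).image a) := by rw [wset, h6]
    by_cases hi : ∃ r < i, a r = a i
    · obtain ⟨r, hr, e⟩ := hi
      have h8 : #((Ioc r i).image a) ≤ wset a i j :=
        h7 ▸ card_le_card (image_subset_image (Ioc_subset_Ioc_left r.zero_le))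
      refine ⟨r, min u _, False, hr, h8.trans h, min_le_right _ _,
        fun _ => ⟨min_le_left _ _, ?_⟩, False.elim⟩
      rw [e, Nat.dist_self]
      exact k1 _ (h8.trans h) (by omega)
    · refine ⟨i - 1, 0, True, by omega, ?_, Nat.zero_le _, fun c => absurd trivial c,
        fun _ => Or.inr ⟨hi, h7 ▸ h⟩⟩
      refine le_trans (card_le_card (image_subset_image (Ioc_subset_Ioc_left (Nat.zero_le _)))) ?_
      exact h7 ▸ h

theorem end_sq {q : ℕ} (hq : 1 ≤ q) (l : ℕ) : gq q l ≤ l ^ 2 := by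
  have h := WQ.gq_real hq (ε := 1) (by
    rw [div_le_one (by exact_mod_cast hq)]
    exact_mod_cast hq) l
  rw [show (1 : ℝ) + 1 = ((2 : ℕ) : ℝ) by norm_num, Real.rpow_natCast] at h
  exact_mod_cast h

theorem end_nat (hLOC : S_LOC) (q : ℕ) (hq : 2 ≤ q) :
    ∃ C : ℕ, ∀ (n m u : ℕ) (T : BT) (a y : ℕ → ℕ), T.keys = List.range' 1 n →
    (∀ i < m, 1 ≤ a i ∧ a i ≤ n) → (∀ i < m, wset a i (y i) ≤ 2 ^ u) →
    cost T ((List.range m).map a) ≤
      C * (∑ i ∈ range m, Nat.log 2 (wset a i (y i) + Nat.dist (a i) (y i)) +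
          (n + m) * (Nat.log 2 u + 1) ^ 8 + n * (u + 1) +
        ∑ i ∈ range m, gq q (Nat.log 2 (Nat.dist (a i) (y i) / 2 ^ u + 1))) := by
  obtain ⟨C, hC⟩ := hLOC q hq
  refine ⟨C * 300, fun n m u T a y hT ha hy => ?_⟩
  have w : ∀ i, ∃ (s v : ℕ) (f : Prop), i < m → 1 ≤ i → s < i ∧ #((Ioc s i).image a) ≤ 2 ^ u ∧
      v ≤ Nat.log 2 (wset a i (y i) + Nat.dist (a i) (y i)) + 1 ∧
      (¬ f → v ≤ u ∧ #((Ioc s i).image a) + Nat.dist (a i) (a s) ≤ 2 ^ v) ∧
      (f → (u ≤ Nat.log 2 (wset a i (y i) + Nat.dist (a i) (y i)) ∧ a s = y i) ∨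
        ((¬ ∃ r < i, a r = a i) ∧ #((Ioc 0 i).image a) ≤ 2 ^ u)) := fun i => by
    by_cases hi : i < m ∧ 1 ≤ i
    · obtain ⟨s, v, f, h⟩ := end_wit a i (y i) u hi.2 (hy i hi.1)
      exact ⟨s, v, f, fun _ _ => h⟩
    · exact ⟨0, 0, True, fun c1 c2 => absurd ⟨c1, c2⟩ hi⟩
  choose s v f w using w
  obtain ⟨F, hF⟩ : ∃ F, F = (range m).filter fun i => 1 ≤ i ∧ f i := ⟨_, rfl⟩
  obtain ⟨N, hN⟩ : ∃ N, N = (range m).filter fun i =>
      (¬ ∃ r < i, a r = a i) ∧ #((Ioc 0 i).image a) ≤ 2 ^ u := ⟨_, rfl⟩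
  have n1 : #N ≤ 2 ^ u + 1 := hN ▸ end_new a m (2 ^ u)
  have n2 : #N ≤ n := by
    refine le_trans (card_le_card_of_injOn (t := Icc 1 n) a (fun i hi => ?_)
      fun i hi i' hi' e => ?_) (by simp)
    · exact mem_coe.2 (mem_Icc.2 (ha i (mem_range.1 (mem_filter.1 (hN ▸ mem_coe.1 hi)).1)))
    · have b1 := (mem_filter.1 (hN ▸ mem_coe.1 hi)).2.1
      have b2 := (mem_filter.1 (hN ▸ mem_coe.1 hi')).2.1
      rcases lt_trichotomy i i' with h4 | h4 | h4
      · exact absurd ⟨i, h4, e⟩ b2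
      · exact h4
      · exact absurd ⟨i', h4, e.symm⟩ b1
  have a1 := hC n u m T a s v F hT ha ⟨fun i hi h1 => ⟨(w i hi h1).1, (w i hi h1).2.1⟩,
    fun i hi hi' => by
      rw [mem_insert, not_or] at hi'
      have h1 : 1 ≤ i := by omega
      obtain ⟨b1, -, -, b4, -⟩ := w i hi h1
      exact ⟨b1, b4 fun c => hi'.2 (hF ▸ mem_filter.2 ⟨mem_range.2 hi, h1, c⟩)⟩⟩
  obtain ⟨k, hk⟩ : ∃ k, k = n / 2 ^ u := ⟨_, rfl⟩
  have k1 : 2 ^ u * k ≤ n := hk ▸ Nat.mul_div_le _ _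
  have k2 : Nat.log 2 (k + 1) ^ 2 ≤ 4 * k := by
    rcases Nat.eq_zero_or_pos k with rfl | h
    · simp
    · have c1 := NU.Avg.sq_le (Nat.log 2 (k + 1))
      have c2 := Nat.pow_log_le_self 2 (x := k + 1) (by omega)
      omega
  have a2 : ∑ i ∈ (range m).filter (fun i => i ∉ insert 0 F), (v i + 1) ≤
      ∑ i ∈ range m, (Nat.log 2 (wset a i (y i) + Nat.dist (a i) (y i)) + 2) := by
    rw [sum_filter]
    refine sum_le_sum fun i hi => ?_
    split_ifs with c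
    · exact Nat.zero_le _
    · rw [mem_insert, not_or] at c
      have := (w i (mem_range.1 hi) (by omega)).2.2.1
      omega
  have a3 : ∑ i ∈ F, (u + 1 + gq q (Nat.log 2 (Nat.dist (a i) (a (s i)) / 2 ^ u + 1))) ≤
      ∑ i ∈ range m, (Nat.log 2 (wset a i (y i) + Nat.dist (a i) (y i)) + 1 +
        gq q (Nat.log 2 (Nat.dist (a i) (y i) / 2 ^ u + 1)) +
        if i ∈ N then u + 1 + 4 * k else 0) := by
    rw [hF, sum_filter]
    refine sum_le_sum fun i hi => ?_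
    have hi' := mem_range.1 hi
    by_cases c : 1 ≤ i ∧ f i
    · rw [if_pos c]
      obtain ⟨b1, -, -, -, b5⟩ := w i hi' c.1
      rcases b5 c.2 with ⟨b6, b7⟩ | b6
      · rw [b7]
        omega
      · rw [if_pos (hN ▸ mem_filter.2 ⟨hi, b6⟩)]
        have c1 := ha i hi'
        have c2 := ha (s i) (by omega)
        have c3 : Nat.dist (a i) (a (s i)) / 2 ^ u ≤ k :=
          hk ▸ Nat.div_le_div_right (by unfold Nat.dist; omega)
        have c4 := (end_sq (q := q) (by omega) _).trans ((Nat.pow_le_pow_left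
          (Nat.log_mono_right (b := 2) (Nat.succ_le_succ c3)) 2).trans k2)
        simp only [Nat.succ_eq_add_one] at c4
        omega
    · rw [if_neg c]
      exact Nat.zero_le _
  have a4 : ∑ i ∈ range m, (if i ∈ N then u + 1 + 4 * k else 0) ≤ n * (u + 1) + 8 * n := by
    rw [← sum_filter, sum_const, smul_eq_mul]
    have c1 : #((range m).filter fun i => i ∈ N) ≤ #N :=
      card_le_card fun i hi => (mem_filter.1 hi).2
    have c2 : 1 ≤ 2 ^ u := Nat.one_le_two_pow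
    refine (Nat.mul_le_mul_right _ c1).trans ?_
    rw [mul_add]
    refine Nat.add_le_add (Nat.mul_le_mul_right _ n2) ?_
    calc #N * (4 * k) ≤ (2 * 2 ^ u) * (4 * k) := Nat.mul_le_mul_right _ (by omega)
      _ = 8 * (2 ^ u * k) := by ring
      _ ≤ _ := by omega
  have a5 : Nat.log 2 (u + 1) ≤ Nat.log 2 u + 1 := by
    rcases Nat.eq_zero_or_pos u with rfl | hu
    · simp
    · rw [← Nat.log_mul_base one_lt_two hu.ne']
      exact Nat.log_mono_right (by omega)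
  have a6 : (n + m) * (Nat.log 2 (u + 1) + 1) ^ 8 ≤ 256 * ((n + m) * (Nat.log 2 u + 1) ^ 8) :=
    calc _ ≤ (n + m) * (2 * (Nat.log 2 u + 1)) ^ 8 :=
          Nat.mul_le_mul_left _ (Nat.pow_le_pow_left (by omega) 8)
      _ = _ := by ring
  have a7 : n + m ≤ (n + m) * (Nat.log 2 u + 1) ^ 8 := Nat.le_mul_of_pos_right _ (by positivity)
  simp only [sum_add_distrib, sum_const, card_range, smul_eq_mul] at a2 a3
  refine a1.trans ?_
  rw [mul_assoc]
  refine Nat.mul_le_mul_left _ ?_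
  simp only [sum_add_distrib, sum_const, smul_eq_mul]
  have e : #F * (u + 1) = #F * u + #F * 1 := by ring
  omega

theorem p_END (hLOC : S_LOC) : S_END := by
  intro ε hε
  obtain ⟨q0, hq0⟩ := exists_nat_one_div_lt hε
  have hq : 1 / ((q0 + 2 : ℕ) : ℝ) ≤ ε := by
    refine le_trans (one_div_le_one_div_of_le (by positivity) ?_) hq0.le
    push_cast
    linarith
  obtain ⟨C, hC⟩ := end_nat hLOC (q0 + 2) (by omega)
  refine ⟨C, fun n m u T a y hT ha hy => ?_⟩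
  refine (Nat.cast_le.2 (hC n m u T a y hT ha hy)).trans ?_
  rw [Nat.cast_mul, Nat.cast_add]
  refine mul_le_mul_of_nonneg_left (add_le_add le_rfl ?_) (Nat.cast_nonneg _)
  rw [Nat.cast_sum]
  exact sum_le_sum fun i _ => WQ.gq_real (by omega) hq _

end Pool.Agent.P.MP_119182_lc.AG
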