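import Pool.Agent.P.MP_119182_lc.AG.Iface

/-! Step FIB. -/

set_option autoImplicit false

namespace Pool.Agent.P.MP_119182_lc.AG

open Finset
open scoped Classical
open NU (Run mr)
open LU (key tch up low isl Nx within beyond LK)

theorem p_FIB (hDQ : S_DQ) (hSHR : S_SHR) (hVS : S_VS) :
    S_FIB := by
  intro d S h j s i ρ a k
  set Y := (CF d S j s i).filter fun p => ro d S p.1 p.2 = ρ ∧ an d S p.1 p.2 = a ∧
      #(vs d S p.1 p.2) = k with hY
  rcases Y.eq_empty_or_nonempty with he | hne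
  · rw [he]; simp
  obtain ⟨q, hq, hmax⟩ := Y.exists_max_image Prod.fst hne
  obtain ⟨q0, q1, _, q3⟩ := mem_filter.1 hq
  obtain ⟨q4, q5, q6, _⟩ := mem_filter.1 q0
  have qb : bad d S q.1 q.2 := (mem_filter.1 (mem_filter.1 q4).1).2
  have qv : q.1 ∈ vs d S q.1 q.2 := (hVS d S h q.1 q.2 qb).2.2.2.2.2.2.2.2.1
  refine le_trans (card_le_card ?_) (hDQ d S h q.1 j s i a)
  intro p hp
  obtain ⟨p1, p0, p2, p3⟩ := mem_filter.1 hp
  obtain ⟨p4, p5, p6, p7⟩ := mem_filter.1 p1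
  have hs := hSHR d S h p p4 q q4 (by omega) (by omega) (by omega) (hmax p hp)
  have he := eq_of_subset_of_card_le hs (by omega)
  rw [← he] at qv
  have h1 : q.1 ≤ p.1 := (mem_Icc.1 (mem_filter.1 qv).1).2
  exact mem_filter.2 ⟨(mem_filter.1 p4).1, le_antisymm (hmax p hp) h1, p5, p6, p7, p2⟩

end Pool.Agent.P.MP_119182_lc.AG
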