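import Pool.Agent.P.MP_119182_lc.AG.Iface

/-! Step GM. -/

set_option autoImplicit false

namespace Pool.Agent.P.MP_119182_lc.AG

open Finset
open scoped Classical
open NU (Run mr)
open LU (key tch up low isl Nx within beyond LK)

theorem p_GM :
    S_GM := by
  intro d S h t y ht
  have hne : t ∈ {s | ∀ r, s ≤ r → r < t → tch d r y →
      S.cell (bj d S t y) (d.x r) = it d S t y} := fun r a b => by omega
  have s1 : sg d S t y ≤ t := Nat.sInf_le hne
  have gl : ∀ s, sg d S t y ≤ s → s ≤ t → gm d S t y ≤ lo d S t y s :=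
    fun s h1 h2 => Nat.sInf_le ⟨s, ⟨h1, h2⟩, rfl⟩
  have hne2 : (lo d S t y '' Set.Icc (sg d S t y) t).Nonempty := ⟨_, t, ⟨s1, le_rfl⟩, rfl⟩
  obtain ⟨s0, hs0, e0⟩ := Nat.sInf_mem hne2
  have hb : BddAbove {s | sg d S t y ≤ s ∧ s ≤ t ∧ lo d S t y s = gm d S t y} :=
    ⟨t, fun s hs => hs.2.1⟩
  have hm : sg d S t y ≤ st d S t y ∧ st d S t y ≤ t ∧ lo d S t y (st d S t y) = gm d S t y :=
    Nat.sSup_mem (s := {s | sg d S t y ≤ s ∧ s ≤ t ∧ lo d S t y s = gm d S t y})
      ⟨s0, hs0.1, hs0.2, e0⟩ hb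
  have lt : ∀ s, st d S t y < s → s ≤ t → gm d S t y < lo d S t y s := by
    intro s a b
    have h1 : sg d S t y ≤ s := le_trans hm.1 a.le
    have := gl s h1 b
    by_contra hc
    have : s ≤ st d S t y := le_csSup hb ⟨h1, b, by omega⟩
    omega
  refine ⟨s1, Nat.sInf_mem ⟨t, hne⟩, fun s hs => Nat.sInf_le hs, gl, hm, lt, ?_⟩
  rcases Nat.lt_or_ge (st d S t y) t with a | a
  · by_contra hc
    have k := h.fall (bj d S t y) (st d S t y) (it d S t y) (by omega) (fun e => hc e.symm)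
    have l := lt (st d S t y + 1) (by omega) a
    have e := hm.2.2
    have h4 : lo d S t y (st d S t y + 1) ≤ lo d S t y (st d S t y) := Nat.log_mono_right k
    omega
  · have e : st d S t y = t := le_antisymm hm.2.1 a
    rw [e]; rfl

end Pool.Agent.P.MP_119182_lc.AG
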