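import Pool.Agent.P.MP_119182_lc.AG.Iface

/-! Step INC. -/

set_option autoImplicit false

namespace Pool.Agent.P.MP_119182_lc.AG

open Finset
open scoped Classical
open NU (Run mr)
open LU (key tch up low isl Nx within beyond LK)

theorem p_INC (hQS : S_QS) (hCHN : S_CHN) :
    S_INC := by
  intro d S h j s i k
  refine (hCHN.1 _ ?_).trans ?_
  · intro a ha b hb hlt
    obtain ⟨p, hp0, rfl⟩ := mem_image.1 ha
    obtain ⟨q, hq0, rfl⟩ := mem_image.1 hb
    obtain ⟨hp, kp⟩ := mem_filter.1 hp0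
    obtain ⟨hq, kq⟩ := mem_filter.1 hq0
    simp only at hlt ⊢
    have sp : sc d S p.1 p.2 = i := (mem_filter.1 hp).2.2.2
    have sq : sc d S q.1 q.2 = i := (mem_filter.1 hq).2.2.2
    rcases le_total p.2 q.2 with hle | hle
    · have := ((hQS d S h j s i p hp).2.2 q hq hle).2.1
      omega
    · unfold an
      rw [sp, sq]
      obtain ⟨a1, -, a3⟩ := (hQS d S h j s i q hq).2.2 p hp hle
      refine Nat.div_le_div_right (a1 ?_)
      by_contra hc
      have := a3 (by omega)
      omega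
  · rw [add_assoc]
    refine add_le_add ?_ ?_
    · refine le_trans (card_le_card ?_) (card_image_le (f := Prod.snd))
      intro r hr
      obtain ⟨a, ha, rfl⟩ := mem_image.1 hr
      obtain ⟨p, hp0, rfl⟩ := mem_image.1 ha
      have hp := (mem_filter.1 hp0).1
      obtain ⟨h1, h2, h3, _⟩ := mem_filter.1 hp
      refine mem_image.2 ⟨(st d S p.1 p.2, ro d S p.1 p.2), mem_filter.2 ⟨?_, h3⟩, rfl⟩
      exact mem_image.2 ⟨p, mem_filter.2 ⟨h1, h2⟩, rfl⟩
    · refine le_trans (card_le_card ?_) (hCHN.2.2.1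
        (j * S.W + Nat.log 2 (S.om j s (S.cell j (d.x s)))) (B0 d S j s) (2 ^ (i - 1))
        Nat.one_le_two_pow)
      intro r hr
      obtain ⟨a, ha, rfl⟩ := mem_image.1 hr
      obtain ⟨p, hp0, rfl⟩ := mem_image.1 ha
      have hp := (mem_filter.1 hp0).1
      have sp : sc d S p.1 p.2 = i := (mem_filter.1 hp).2.2.2
      obtain ⟨h1, h2, _⟩ := hQS d S h j s i p hp
      simp only [mem_Icc]
      unfold an
      rw [sp]
      exact ⟨Nat.div_le_div_right h1, Nat.div_le_div_right h2⟩

end Pool.Agent.P.MP_119182_lc.AG
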