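import Pool.Agent.P.MP_119182_lc.AG.IfaceB

/-! Step LOC. -/

set_option autoImplicit false

namespace Pool.Agent.P.MP_119182_lc.AG

open Finset
open scoped Classical
open NU (mr)
open LU (key tch up low isl Nx within beyond LK)
open IT (Marks One mq)
open AE (tl PP QM Hot Wit)
open WQ (Wt S_LQ ww gq)

theorem p_LOC (hRUN : S_RUN) (hEPS : WQ.S_EPS) (hALGA : NU.S_ALGA) (hBRG : NU.S_BRG) (hTURN : NU.S_TURN) :
    S_LOC := by
  intro q hq
  obtain ⟨wt, D, h1, hs, hT⟩ := hEPS q hq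
  have hw : Wt 4 (fun k => if k = 0 then 0 else wt k) fun l => 2 * D * gq q l := by
    refine ⟨if_pos rfl, fun k hk => ?_, fun l => ?_, fun l e hl => ?_⟩
    · rw [if_neg (by omega)]
      exact h1 k hk
    · rcases Nat.eq_zero_or_pos l with rfl | hl
      · simp
      have h2 := WQ.gq_pos q l hl
      have h3 : ∑ k ∈ range (l + 1), (if k = 0 then 0 else wt k) ≤ ∑ k ∈ range (l + 1), wt k :=
        sum_le_sum fun k _ => by split_ifs <;> omega
      refine h3.trans ((hs l).trans ?_)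
      rw [mul_comm 2 D, mul_assoc]
      exact Nat.mul_le_mul_left _ (by omega)
    · refine (Nat.mul_le_mul_left _ (WQ.gq_grow (by omega) l e hl)).trans (le_of_eq ?_)
      ring
  have hG : ∀ l, 2 * D * gq q (l + 1) ≤ 128 * D * (gq q l + 1) := by
    intro l
    have h4 : gq q (l + 1) ≤ 64 * (gq q l + 1) := by
      rcases Nat.eq_zero_or_pos l with rfl | hl
      · simp [gq]
      · have := WQ.gq_grow (q := q) (by omega) l 1 hl
        omega
    calc 2 * D * gq q (l + 1) ≤ 2 * D * (64 * (gq q l + 1)) := Nat.mul_le_mul_left _ h4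
      _ = _ := by ring
  obtain ⟨C, hC⟩ := hRUN 4 (128 * D) _ _ (gq q) hw (WQ.lq_zero hT) hG (WQ.gq_mono q)
  clear hw hG hT hs h1
  refine ⟨C + 160, fun n u m T a s v E h2 h3 hw => ?_⟩
  rcases Nat.eq_zero_or_pos n with rfl | hn
  · rcases Nat.eq_zero_or_pos m with rfl | hm
    · simp [cost]
    · have := h3 0 hm
      omega
  obtain ⟨h, key⟩ := hC n u m a s v E hn h3 hw
  have c1 := TV.cost_half T a m
  have c2 := TV.cost_half T (fun i => a (i / 2)) (2 * m)
  have e1 : (fun i => a (i / 2 / 2)) = fun q => a (q / 4) := by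
    funext q
    rw [Nat.div_div_eq_div_mul]
  have e2 : 2 * (2 * m) = 4 * m := by omega
  simp only [e1, e2] at c2
  have k4 : n + m ≤ (n + m) * (Nat.log 2 (u + 1) + 1) ^ 8 :=
    Nat.le_mul_of_pos_right _ (by positivity)
  generalize (n + m) * (Nat.log 2 (u + 1) + 1) ^ 8 = X at k4 key ⊢
  generalize ∑ i ∈ (range m).filter (fun i => i ∉ insert 0 E), (v i + 1) = V at key ⊢
  generalize n * (u + 1) = D at key ⊢
  generalize #E * (u + 1) = F at key ⊢
  generalize ∑ i ∈ E, gq q (Nat.log 2 (Nat.dist (a i) (a (s i)) / 2 ^ u + 1)) = P at key ⊢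
  obtain ⟨d, d1, d2, d3, d4, d5, d6, d7, d8⟩ :=
    hBRG n (4 * m) h T (fun q => a (q / 4)) h2 fun i hi => h3 _ (by omega)
  obtain ⟨e, e1, e2, e3, e4⟩ := hALGA d d5
  have t := hTURN d e d5 e2 e1 d6 d7
  obtain ⟨f1, f2, f3, f4⟩ := e1
  have l1 := key d d5 d1 d2 d3 d4
  have l2 := key e e2 (f1.trans d1) (f2.trans d2) (f3.trans d3) (f4.trans d4)
  rw [f3, d3] at e3 e4
  have k3 : (d.R - d.L).toNat = n + 1 := by omega
  rw [k3, d3] at t
  have k5 : (C + 160) * (V + X + D + F + P) =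
      C * (V + X + D + F + P) + 160 * (V + X + D + F + P) := by ring
  omega

end Pool.Agent.P.MP_119182_lc.AG
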