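import Pool.Agent.P.MP_119182_lc.AG.Iface

/-! Step MIR. -/

set_option autoImplicit false

namespace Pool.Agent.P.MP_119182_lc.AG

open Finset
open scoped Classical
open NU (Run mr)
open LU (key tch up low isl Nx within beyond LK)

namespace MIRx

theorem mm (v : ℤ) : mr (mr v) = v := by unfold mr; omega

theorem mlt {a b : ℤ} : mr a < mr b ↔ b < a := by unfold mr; omega

theorem minj {a b : ℤ} : mr a = mr b ↔ a = b := by unfold mr; omega

theorem dmm (d : Run) : d.mir.mir = d := by
  cases d
  simp [Run.mir, mm]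

theorem smm (S : Sys) : S.mir.mir = S := by
  cases S
  simp [Sys.mir, mm]

theorem cellm (S : Sys) (j : ℕ) (a : ℤ) : S.mir.cell j (mr a) = -S.cell j a := by
  show -S.cell j (mr (mr a)) = _
  rw [mm]

theorem smm' (S : Sys) (j t : ℕ) (c c' : ℤ) : sm S.mir j t (-c') (-c) = sm S j t c c' := by
  unfold sm
  refine sum_bij' (fun e _ => -e) (fun e _ => -e) ?_ ?_ ?_ ?_ ?_
  · intro e he
    rw [mem_Icc] at he ⊢
    omega
  · intro e he
    rw [mem_Icc] at he ⊢
    omega
  · intro e _
    simp
  · intro e _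
    simp
  · intro e _
    rfl

theorem bdm (S : Sys) (a b : ℤ) : bd S.mir (mr a) (mr b) = bd S a b := by
  unfold bd
  congr 1
  ext j
  show S.mir.cell (j + 1) (mr a) = S.mir.cell (j + 1) (mr b) ↔ S.cell (j + 1) a = S.cell (j + 1) b
  rw [cellm, cellm]
  omega

theorem bdc (S : Sys) (a b : ℤ) : bd S a b = bd S b a := by
  unfold bd
  congr 1
  ext j
  exact eq_comm

theorem ptm (d : Run) (a : ℤ) (h : pt d.mir a) : pt d (mr a) := by
  have h1 : mr d.R ≤ a := h.1
  have h2 : a ≤ mr d.L := h.2
  unfold pt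
  unfold mr at *
  omega

theorem okm (d : Run) (S : Sys) (hd : d.mir.OK) (h : OK d S) : OK d.mir S.mir where
  ok := hd
  lr := mlt.2 h.lr
  mono := fun j a b hab => by
    have := h.mono j (show mr b ≤ mr a by unfold mr; omega)
    show -S.cell j (mr a) ≤ -S.cell j (mr b)
    omega
  nest := fun j a b e => by
    have e' : -S.cell j (mr a) = -S.cell j (mr b) := e
    have := h.nest j (mr a) (mr b) (by omega)
    show -S.cell (j + 1) (mr a) = -S.cell (j + 1) (mr b)
    omega
  inj := fun a b e => by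
    have e' : -S.cell 0 (mr a) = -S.cell 0 (mr b) := e
    exact minj.1 (h.inj (mr a) (mr b) (by omega))
  top := fun a b ha hb => by
    have := h.top _ _ (ptm d a ha) (ptm d b hb)
    show -S.cell (S.J + 1) (mr a) = -S.cell (S.J + 1) (mr b)
    omega
  w1 := h.w1
  keep := fun j t c ht hc hd => by
    have hc' : c ≠ S.mir.cell j (mr (d.x t)) := hc
    rw [cellm] at hc'
    refine h.keep j t (-c) ht (by omega) fun k => hd ⟨k.1, k.2.1, ?_⟩
    have := k.2.2
    show c = -S.dr t
    omega
  fall := fun j t c ht hc => by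
    have hc' : c ≠ S.mir.cell j (mr (d.x t)) := hc
    rw [cellm] at hc'
    exact h.fall j t (-c) ht (by omega)
  ht := fun j t a b ha hb e => by
    have e' : -S.cell (j + 1) (mr a) = -S.cell (j + 1) (mr b) := e
    show sm S.mir j t (-S.cell j (mr a)) (-S.cell j (mr b)) < 2 ^ S.W
    rw [smm']
    exact h.ht j t (mr b) (mr a) (ptm d b hb) (ptm d a ha) (by omega)
  sg := fun j t z a b ha hb e1 e2 => by
    have e1' : -S.cell (j + 1) (mr a) = -S.cell (j + 1) (mr z) := e1
    have e2' : -S.cell (j + 1) (mr b) = -S.cell (j + 1) (mr z) := e2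
    show sm S.mir j t (-S.cell j (mr a)) (-S.cell j (mr b)) ≤ S.SG j t (mr z)
    rw [smm']
    exact h.sg j t (mr z) (mr b) (mr a) (ptm d b hb) (ptm d a ha) (by omega) (by omega)

theorem side {α : Type} (d : Run) (S : Sys) (f : Run → Sys → ℕ → ℤ → α) (t : ℕ) (y : ℤ)
    (hy : y ≠ d.x t) :
    (if d.mir.x t < mr y then f d.mir S.mir t (mr y)
      else f d.mir.mir S.mir.mir t (mr (mr y))) =
    if d.x t < y then f d S t y else f d.mir S.mir t (mr y) := by
  have e : d.mir.x t < mr y ↔ y < d.x t := mlt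
  by_cases h : d.x t < y
  · rw [if_pos h, if_neg (by rw [e]; omega), dmm, smm, mm]
  · rw [if_neg h, if_pos (by rw [e]; omega)]

theorem lowne (d : Run) (s : ℕ) (u : ℤ) (h : up d s u) : low d s u ≠ d.x s := by
  unfold low
  rcases h.2 with k | k
  · rw [if_pos k.1]; exact k.2
  · rw [if_neg (by have := k.1; omega)]; exact k.2

end MIRx

open MIRx in
theorem p_MIR (hMIRA : LU.S_MIRA) :
    S_MIR := by
  intro d S
  obtain ⟨-, -, a3, a4, -, -, a7, a8, -⟩ :=
    hMIRA d ⟨fun _ _ => 0, fun _ _ => 0, fun _ _ => True, fun _ _ => 0⟩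
  have hpre : ∀ t y, y ≠ d.x t → pre d.mir S.mir t (mr y) = pre d S t y := fun t y hy =>
    side d S preR t y hy
  refine ⟨fun h => okm d S (a8 h.ok) h, dmm d, smm S, rfl, bdm S, fun _ t a b _ _ => ?_, ?_, ?_,
    fun t y hy => ⟨hpre t y hy, side d S shR t y hy, side d S gp t y hy⟩, fun s y => ?_,
    fun s y => ?_, fun s y t => ?_⟩
  · unfold F
    rw [bdm, cellm, cellm, smm', bdc S b a]
    rfl
  · refine sum_congr rfl fun s _ => sum_congr rfl fun j _ => ?_
    show Nat.log 2 (S.SG j s (mr (mr (d.x s)))) -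
      Nat.log 2 (S.om j s (-S.mir.cell j (mr (d.x s)))) = _
    rw [mm, cellm, neg_neg]
    rfl
  · refine sum_congr rfl fun s _ => sum_congr rfl fun j _ => ?_
    show Nat.log 2 (S.SG j (s + 1) (mr (mr (d.x s)))) -
      Nat.log 2 (S.om j (s + 1) (-S.mir.cell j (mr (d.x s)))) = _
    rw [mm, cellm, neg_neg]
    rfl
  · unfold pv
    congr 1
    ext k
    constructor
    · rintro ⟨t, h1, h2, h3⟩
      have h4 : d.x t ≠ y := fun e => h2 (minj.2 e)
      exact ⟨t, (a7 s y t).1 h1, h4, h3.trans (hpre t y h4.symm)⟩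
    · rintro ⟨t, h1, h2, h3⟩
      exact ⟨t, (a7 s y t).2 h1, fun e => h2 (minj.1 e), h3.trans (hpre t y h2.symm).symm⟩
  · by_cases hy : y = d.x s
    · constructor
      · intro h
        exact absurd (h.2.trans (by rw [hy]; rfl)) (lowne d.mir s _ h.1)
      · intro h
        exact absurd (h.2.trans hy) (lowne d s _ h.1)
    · have e : LU.par d.mir s (mr y) = mr (LU.par d s y) := by
        have e1 : d.mir.x s < mr y ↔ y < d.x s := mlt
        unfold LU.par
        by_cases h : d.x s < y
        · rw [if_pos h, if_neg (by rw [e1]; omega)]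
          show mr (d.rp s (mr (mr y))) = _
          rw [mm]
        · rw [if_neg h, if_pos (by rw [e1]; omega)]
          show mr (d.lp s (mr (mr y))) = _
          rw [mm]
      unfold isl
      rw [e, a3]
      constructor
      · intro h
        exact ⟨h.1, minj.1 ((a4 s _ h.1).symm.trans h.2)⟩
      · intro h
        exact ⟨h.1, (a4 s _ h.1).trans (minj.2 h.2)⟩
  · have e1 : d.mir.x s = mr (d.x s) := rfl
    have e2 : d.mir.x t = mr (d.x t) := rfl
    unfold within beyond
    rw [e1, e2]
    unfold mr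
    constructor <;> constructor <;> intro h <;> constructor <;> intro k <;>
      have h1 := h.1 <;> have h2 := h.2 <;> omega

end Pool.Agent.P.MP_119182_lc.AG
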