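import Pool.Agent.P.MP_119182_lc.AG.Iface

/-! Step OLD. -/

set_option autoImplicit false

namespace Pool.Agent.P.MP_119182_lc.AG

open Finset
open scoped Classical
open NU (Run mr)
open LU (key tch up low isl Nx within beyond LK)

theorem p_OLD (hGM : S_GM) (hVS : S_VS) :
    S_OLD := by
  intro d S h
  unfold NU.Run.NR
  rw [← card_sigma, ← card_sigma]
  have key1 : ∀ t u t' r, (t, u) ∈ CL d S → (t', u) ∈ CL d S → r ∈ vs d S t u →
      r ∈ vs d S t' u → ¬ t < t' := by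
    intro t u t' r h1 h2 h3 h4 h5
    obtain ⟨a1, _⟩ := mem_filter.1 h1
    obtain ⟨a2, a3⟩ := mem_filter.1 h2
    have b1 : bad d S t u := (mem_filter.1 a1).2
    have b2 : bad d S t' u := (mem_filter.1 a2).2
    have c1 := (mem_Icc.1 (mem_filter.1 h3).1).2
    have c2 := (mem_Icc.1 (mem_filter.1 h4).1).1
    have c3 := (hGM d S h t' u b2.1.1.1).2.2.2.2.1.1
    exact a3 t (by dsimp only; omega) h5 b1.1.2
  refine card_le_card_of_injOn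
    (fun q : (Σ _ : ℕ × ℤ, ℕ) => (⟨q.2, q.1.2⟩ : Σ _ : ℕ, ℤ)) ?_ ?_
  · rintro ⟨⟨t, u⟩, r⟩ hq
    obtain ⟨h1, h2⟩ := mem_sigma.1 (mem_coe.1 hq)
    have b1 : bad d S t u := (mem_filter.1 (mem_filter.1 h1).1).2
    obtain ⟨c1, c2⟩ := mem_filter.1 h2
    obtain ⟨c3, c4⟩ := mem_Icc.1 c1
    have c5 := (hGM d S h t u b1.1.1.1).2.2.2.2.1.1
    have c6 := ((hVS d S h t u b1).1 r (c5.trans c3) c4 c2).1
    have c7 : t < d.m := b1.1.1.1
    refine mem_coe.2 (mem_sigma.2 ⟨mem_range.2 (lt_of_le_of_lt c4 c7), ?_⟩)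
    exact mem_filter.2 ⟨mem_Ioo.2 ⟨c6, c2.1.2⟩, c2.2.1⟩
  · rintro ⟨⟨t, u⟩, r⟩ hp ⟨⟨t', u'⟩, r'⟩ hq e
    obtain ⟨h1, h2⟩ := mem_sigma.1 (mem_coe.1 hp)
    obtain ⟨h3, h4⟩ := mem_sigma.1 (mem_coe.1 hq)
    obtain ⟨e1, e2⟩ := Sigma.mk.inj_iff.1 e
    have e3 : u = u' := eq_of_heq e2
    have e4 : r = r' := e1
    subst e3 e4
    have a1 := key1 t u t' r h1 h3 h2 h4
    have a2 := key1 t' u t r h3 h1 h4 h2
    have e5 : t = t' := by omega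
    rw [e5]

end Pool.Agent.P.MP_119182_lc.AG
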