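import Pool.Agent.P.MP_119182_lc.AG.Iface

/-! Step PA. -/

set_option autoImplicit false

namespace Pool.Agent.P.MP_119182_lc.AG

open Finset
open scoped Classical
open NU (Run mr)
open LU (key tch up low isl Nx within beyond LK)

theorem p_PA (hFZ : S_FZ) (hPV : S_PV) (hKEEP : S_KEEP) (hBIR : S_BIR) (hMIR : S_MIR) (hLINK : LU.S_LINK) (hMIRA : LU.S_MIRA) :
    S_PA := by
  intro d S h s hs
  have hd := h.ok
  have c0 : LU.Val := val d S
  obtain ⟨-, m2, m3, -, -, -, m7, -⟩ := hMIRA d c0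
  have hm := (hMIR d S).1 h
  have bound : ∀ y B, key d y → (∀ t, Nx d (s + 1) y t → d.x t ≠ y → pre d S t y ≤ B) →
      pv d S (s + 1) y ≤ B := by
    intro y B hy hB
    obtain ⟨p1, p2, -⟩ := hPV d S h (s + 1) y hy
    by_cases e : ∃ t, Nx d (s + 1) y t ∧ d.x t ≠ y
    · obtain ⟨t, a, b⟩ := e
      rw [p1 t a b]
      exact hB t a b
    · rw [p2 fun t a => by_contra fun b => e ⟨t, a, b⟩]
      exact Nat.zero_le _
  have turn : ∀ y t, rt d s y → ¬ up d s y → Nx d (s + 1) y t → ¬ d.x t < y →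
      pre d S t y = 0 := by
    intro y t hy hu hn hx
    have k : rf d.mir S.mir t (mr y) := by
      refine hBIR d.mir S.mir hm s t (mr y) hs ((m2 s y).2 hy.2.1) ?_
        (fun a => hu ((m3 s y).1 a)) ((m7 _ y t).2 hn)
      have := hy.2.2
      show mr y < mr (d.x s)
      unfold mr
      omega
    unfold pre preR
    rw [if_neg hx, if_pos (Or.inl k)]
  have keep : ∀ y, rt d s y → ¬ up d s y → pv d S (s + 1) y ≤
      tp d S s y (d.rp (s + 1) y) - F S s y (d.rp (s + 1) y) := by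
    intro y hy hu
    refine bound y _ hy.2.1.1 fun t hn _ => ?_
    by_cases hx : d.x t < y
    · unfold pre preR
      rw [if_pos hx]
      split_ifs with k
      · exact Nat.zero_le _
      · exact hKEEP d S h s t y hy hu hn hx fun a => k (Or.inl a)
    · rw [turn y t hy hu hn hx]
      exact Nat.zero_le _
  obtain ⟨L1, L2, -, L4, -⟩ := hLINK d hd s hs
  obtain ⟨-, -, F3, -, -, -, F7, -⟩ := hFZ d hd
  refine ⟨?_, ?_, ?_, ?_⟩
  · refine Nat.le_zero.1 (bound _ 0 (F7 s hs) fun t hn _ => ?_)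
    have e : t = s + 1 := by
      obtain ⟨a1, a2, -, -, a5⟩ := hn
      by_contra ne
      have k := F7 (s + 1) (by omega)
      refine a5 (s + 1) le_rfl (by omega) ?_
      rw [L4.2.2.2.1, L4.2.2.2.2]
      exact k
    subst e
    have k1 : ac d (s + 1) (d.x s) := ⟨by omega, rfl⟩
    have k2 : ac d.mir (s + 1) (mr (d.x s)) := ⟨by omega, rfl⟩
    unfold pre preR
    rw [if_pos (Or.inr k1), if_pos (Or.inr k2)]
    split_ifs <;> exact le_rfl
  · intro y t hy hu hn hb
    refine Nat.le_zero.1 (bound y 0 hy.2.1.1 fun t' hn' _ => ?_)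
    rw [F3 _ t' t y hn' hn, turn y t hy hu hn (not_lt.2 (hb.1 hy.2.2))]
  · intro y hy hu hi
    have k := keep y hy hu
    rw [((L2 y hy.2.1 hu hi).1 hy.2.2).2] at k
    unfold shR
    rw [if_neg hu, if_neg hi]
    exact k
  · intro u hu
    obtain ⟨a1, a2, -, -, -, a | a⟩ := L1 u hu.2
    · have k := keep (low d s u) ⟨hs, a1, a.1⟩ a2
      rw [a.2.2.2.2.1] at k
      exact k
    · have := hu.1.2.2
      omega

end Pool.Agent.P.MP_119182_lc.AG
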