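import Pool.Agent.P.MP_119182_lc.AG.Iface

/-! Step POK. -/

set_option autoImplicit false

namespace Pool.Agent.P.MP_119182_lc.AG

open Finset
open scoped Classical
open NU (Run mr)
open LU (key tch up low isl Nx within beyond LK)

theorem p_POK (hFZ : S_FZ) (hPV : S_PV) (hPA : S_PA) (hPB : S_PB) (hMIR : S_MIR) (hLINK : LU.S_LINK) (hPI : LU.S_PI) (hMIRA : LU.S_MIRA) :
    S_POK := by
  intro d S h
  have hd := h.ok
  obtain ⟨m1, -, -, -, -, -, -, -, -, mpv, misl, mwb⟩ := hMIR d S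
  have h' := m1 h
  obtain ⟨k1, k2, k3, k4, -, -, k7, -, -⟩ := hMIRA d (val d S)
  have mlt : ∀ s y, d.mir.x s < mr y ↔ y < d.x s := by
    intro s y
    change mr (d.x s) < mr y ↔ _
    unfold mr
    omega
  have v0s : ∀ s y, (val d S).v0 (s + 1) y = pv d S (s + 1) y := fun s y => by simp [val]
  have vt : ∀ s y, s < d.m → tch d s y → y ≠ d.x s → (val d S).v s y = sh d S s y :=
    fun s y a b c => if_pos ⟨a, b, c⟩
  have vn : ∀ s y, ¬ tch d s y → (val d S).v s y = pv d S s y :=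
    fun s y a => if_neg fun b => a b.2.1
  have shr : ∀ s y, d.x s < y → sh d S s y = shR d S s y := fun s y a => if_pos a
  have shl : ∀ s y, y < d.x s → sh d S s y = shR d.mir S.mir s (mr y) :=
    fun s y a => if_neg (not_lt.2 a.le)
  have gap : ∀ s < d.m, ∀ u, up d s u → gg d S s u ≤ (val d S).v s u ∧
      gg d S s u ≤ (val d S).v s (low d s u) ∧ pv d S (s + 1) (low d s u) ≤ gg d S s u ∧
      ((val d S).hi s u → pv d S (s + 1) u + gg d S s u ≤ (val d S).v s u) ∧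
      (¬ (val d S).hi s u → pv d S (s + 1) u + gg d S s u ≤ (val d S).v s (low d s u)) := by
    intro s hs u hu
    obtain ⟨a1, -, -, -, -, a6⟩ := (hLINK d hd s hs).1 u hu
    rcases a6 with ⟨b1, b2, -⟩ | ⟨b1, b2, -⟩
    · have hx : d.x s < u := b1.trans b2
      have hr : rl d s u := ⟨⟨hs, hu.1, hx⟩, hu⟩
      obtain ⟨c1, c2, c3, c4⟩ := hPB d S h s u hr
      have c5 := (hPA d S h s hs).2.2.2 u hr
      have e : gg d S s u = gp d S s u := if_pos hx
      rw [vt s u hs hu.1 hx.ne', vt s _ hs a1 b1.ne', shr s u hx, shr s _ b1, e]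
      exact ⟨c1, c2, c5, c3, c4⟩
    · have hx : u < d.x s := b2.trans b1
      have hu' := (k3 s u).2 hu
      have hr : rl d.mir s (mr u) := ⟨⟨hs, hu'.1, (mlt s u).2 hx⟩, hu'⟩
      obtain ⟨c1, c2, c3, c4⟩ := hPB d.mir S.mir h' s (mr u) hr
      have c5 := (hPA d.mir S.mir h' s hs).2.2.2 (mr u) hr
      have e : gg d S s u = gp d.mir S.mir s (mr u) := if_neg (not_lt.2 hx.le)
      have e2 : (∀ t, Nx d.mir (s + 1) (mr u) t → within d.mir s (mr u) t) ↔ (val d S).hi s u :=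
        forall_congr' fun t => by rw [k7, (mwb s u t).1]
      rw [k4 s u hu] at c2 c4 c5
      rw [mpv] at c3 c4 c5
      rw [e2] at c3 c4
      rw [vt s u hs hu.1 hx.ne, vt s _ hs a1 b1.ne, shl s u hx, shl s _ b1, e]
      exact ⟨c1, c2, c5, c3, c4⟩
  refine ⟨fun s y => ?_, fun y => by simp [val], fun s hs y hy ht => ?_, fun s hs => ?_,
    fun s hs y hy => ?_, fun s hs u hu => ?_, fun s hs y t ht hu hn hb => ?_,
    fun s hs u t hu hn h1 h2 => ?_⟩
  · rcases s with _ | s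
    · simp [val]
    · rw [v0s]
      by_cases hc : s + 1 < d.m ∧ tch d (s + 1) y ∧ y ≠ d.x (s + 1)
      · rw [vt _ _ hc.1 hc.2.1 hc.2.2]
        obtain ⟨a, b, -⟩ := (hPV d S h (s + 1) y hc.2.1.1).2.2.2.1 hc.1 hc.2.1 hc.2.2
        exact a.le.trans b
      · exact le_of_eq (if_neg hc).symm
  · rw [v0s, vn s y ht]
    exact (hPV d S h s y hy).2.2.1 hs ht
  · rw [v0s]
    exact (hPA d S h s hs).1
  · obtain ⟨p1, p2, -⟩ := (hPI d (val d S) hd).1 s hs
    rw [v0s]
    by_cases hu : up d s y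
    · obtain ⟨-, -, -, g4, g5⟩ := gap s hs y hu
      by_cases hh : (val d S).hi s y
      · rw [((p1 y hu).1 hh).1]
        exact le_trans (Nat.le_add_right _ _) (g4 hh)
      · rw [((p1 y hu).2 hh).1]
        exact le_trans (Nat.le_add_right _ _) (g5 hh)
    by_cases hi : isl d s y
    · obtain ⟨g1, g2, g3, -, -⟩ := gap s hs _ hi.1
      have q := p1 _ hi.1
      rw [hi.2] at g2 g3 q
      by_cases hh : (val d S).hi s (LU.par d s y)
      · rw [(q.1 hh).2]
        exact g3.trans g2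
      · rw [(q.2 hh).2]
        exact g3.trans g1
    rw [p2 y hu hi]
    by_cases ht : tch d s y
    · rcases lt_trichotomy (d.x s) y with hx | hx | hx
      · rw [vt s y hs ht hx.ne', shr s y hx]
        exact (hPA d S h s hs).2.2.1 y ⟨hs, ht, hx⟩ hu hi
      · rw [← hx, (hPA d S h s hs).1]
        exact Nat.zero_le _
      · rw [vt s y hs ht hx.ne, shl s y hx, ← mpv]
        exact (hPA d.mir S.mir h' s hs).2.2.1 (mr y) ⟨hs, (k2 s y).2 ht, (mlt s y).2 hx⟩
          (fun a => hu ((k3 s y).1 a)) fun a => hi ((misl s y).1 a)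
    · rw [vn s y ht]
      exact ((hPV d S h s y hy).2.2.1 hs ht).le
  · obtain ⟨p1, -, -⟩ := (hPI d (val d S) hd).1 s hs
    obtain ⟨g1, g2, g3, g4, g5⟩ := gap s hs u hu
    rw [v0s, v0s]
    by_cases hh : (val d S).hi s u
    · rw [((p1 u hu).1 hh).1, ((p1 u hu).1 hh).2]
      exact ⟨g2, g3, g4 hh⟩
    · rw [((p1 u hu).2 hh).1, ((p1 u hu).2 hh).2]
      exact ⟨g1, g3, g5 hh⟩
  · rw [v0s]
    rcases lt_trichotomy (d.x s) y with hx | hx | hx
    · exact (hPA d S h s hs).2.1 y t ⟨hs, ht, hx⟩ hu hn hb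
    · rw [← hx]
      exact (hPA d S h s hs).1
    · rw [← mpv]
      exact (hPA d.mir S.mir h' s hs).2.1 (mr y) t ⟨hs, (k2 s y).2 ht, (mlt s y).2 hx⟩
        (fun a => hu ((k3 s y).1 a)) ((k7 _ _ _).2 hn) ((mwb s y t).2.2 hb)
  · rw [v0s]
    have uq := (hFZ d hd).2.2.1
    have hh : (val d S).hi s u := by
      by_contra hh
      exact hh fun t' hn' => uq _ _ _ _ hn hn' ▸ h2 hh
    have hw : within d s u t := hh t hn
    have hb := h1 hh
    refine (hPV d S h (s + 1) u hu.1.1).2.1 fun t' hn' => ?_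
    rw [← uq _ _ _ _ hn hn']
    rcases hu.2 with ⟨a, -⟩ | ⟨a, -⟩
    · exact le_antisymm (hw.1 a) (hb.1 a)
    · exact le_antisymm (hb.2 a) (hw.2 a)

end Pool.Agent.P.MP_119182_lc.AG
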