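import Pool.Agent.P.MP_119182_lc.AG.Iface

/-! Step PV. -/

set_option autoImplicit false

namespace Pool.Agent.P.MP_119182_lc.AG

open Finset
open scoped Classical
open NU (Run mr)
open LU (key tch up low isl Nx within beyond LK)

theorem pv_one (hFZ : S_FZ) (d : Run) (S : Sys) (hd : d.OK) (s t : ℕ) (y : ℤ)
    (h : Nx d s y t) (hx : d.x t ≠ y) : pv d S s y = pre d S t y := by
  have e : {k | ∃ t, Nx d s y t ∧ d.x t ≠ y ∧ k = pre d S t y} = {pre d S t y} := by
    ext k
    simp only [Set.mem_ofPred_eq, Set.mem_singleton_iff]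
    constructor
    · rintro ⟨t', a, -, c⟩
      rw [(hFZ d hd).2.2.1 s t t' y h a]
      exact c
    · intro c
      exact ⟨t, h, hx, c⟩
  unfold pv
  rw [e, csSup_singleton]

theorem pv_none (d : Run) (S : Sys) (s : ℕ) (y : ℤ)
    (h : ∀ t, Nx d s y t → d.x t = y) : pv d S s y = 0 := by
  have e : {k | ∃ t, Nx d s y t ∧ d.x t ≠ y ∧ k = pre d S t y} = ∅ := by
    ext k
    simp only [Set.mem_ofPred_eq, Set.mem_empty_iff_false, iff_false]
    rintro ⟨t', a, b, -⟩
    exact b (h t' a)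
  unfold pv
  rw [e]
  exact csSup_empty

theorem pv_right (hFZ : S_FZ) (hTP : S_TP) (hLINK : LU.S_LINK) (d : Run) (S : Sys) (h : OK d S)
    (t : ℕ) (y : ℤ) (ht' : t < d.m) (hy : tch d t y) (hx : d.x t < y) :
    preR d S t y ≤ shR d S t y ∧ shR d S t y ≤ ht S := by
  have fz := (hFZ d h.ok).2.2.2.2.2.1
  obtain ⟨-, p2, -, p4⟩ := fz t y ht'.le hy.1
  have hV : VR d S t y ≤ ht S := by
    have := (hTP d S h t y (d.rp t y) ht' hy.1 hx p4 p2).2.2.1
    unfold VR
    omega
  have h1 : preR d S t y ≤ VR d S t y := by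
    unfold preR
    split_ifs
    · exact Nat.zero_le _
    · exact le_rfl
  have h2 : VR d S t y ≤ shR d S t y := by
    unfold shR
    split_ifs
    · exact le_max_left _ _
    · exact le_max_left _ _
    · exact le_rfl
  refine ⟨h1.trans h2, ?_⟩
  unfold shR
  split_ifs with hu hl
  · obtain ⟨a1, -, -, -, -, a6⟩ := (hLINK d h.ok t ht').1 y hu
    have b : d.x t < low d t y ∧ low d t y < y := by
      rcases a6 with a | a
      · exact ⟨a.1, a.2.1⟩
      · obtain ⟨k1, k2, -⟩ := a
        omega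
    have := (hTP d S h t (low d t y) (d.rp t y) ht' a1.1 b.1 (by omega) p2).2.2.1
    refine max_le hV ?_
    unfold AA
    omega
  · obtain ⟨l1, l2⟩ := hl
    have e : LU.par d t y = d.rp t y := by
      unfold LU.par
      rw [if_pos hx]
    rw [e] at l1 l2
    obtain ⟨-, q2, -, q4⟩ := fz t (d.rp t y) ht'.le l1.1.1
    have := (hTP d S h t y (d.rp t (d.rp t y)) ht' hy.1 hx (by omega) q2).2.2.1
    refine max_le hV ?_
    unfold AA
    rw [l2]
    omega
  · exact hV

theorem pv_both (hFZ : S_FZ) (hTP : S_TP) (hMIR : S_MIR) (hLINK : LU.S_LINK) (hMIRA : LU.S_MIRA)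
    (d : Run) (S : Sys) (h : OK d S) (t : ℕ) (y : ℤ) (ht' : t < d.m) (hy : tch d t y)
    (hx : y ≠ d.x t) : pre d S t y ≤ sh d S t y ∧ sh d S t y ≤ ht S := by
  unfold pre sh
  by_cases c : d.x t < y
  · rw [if_pos c, if_pos c]
    exact pv_right hFZ hTP hLINK d S h t y ht' hy c
  · rw [if_neg c, if_neg c]
    obtain ⟨m1, -, -, m4, -⟩ := hMIR d S
    have k := (hMIRA d (val d S)).2.1 t y
    have hlt : d.mir.x t < mr y := by
      show mr (d.x t) < mr y
      unfold mr
      omega
    have := pv_right hFZ hTP hLINK d.mir S.mir (m1 h) t (mr y) ht' (k.2 hy) hlt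
    rw [m4] at this
    exact this

theorem p_PV (hFZ : S_FZ) (hTP : S_TP) (hMIR : S_MIR) (hLINK : LU.S_LINK) (hMIRA : LU.S_MIRA) :
    S_PV := by
  intro d S h s y hk
  have nx := fun s t => (hFZ d h.ok).2.1 s t y hk
  refine ⟨fun t a b => pv_one hFZ d S h.ok s t y a b, pv_none d S s y, fun hs hn => ?_,
    fun hs hy hx => ⟨?_, pv_both hFZ hTP hMIR hLINK hMIRA d S h s y hs hy hx⟩, ?_⟩
  · have e : ∀ t, Nx d (s + 1) y t ↔ Nx d s y t := by
      intro t
      rw [nx, nx]
      constructor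
      · rintro ⟨a1, a2, a3, a4⟩
        refine ⟨by omega, a2, a3, fun q b1 b2 => ?_⟩
        rcases b1.eq_or_lt with b | b
        · subst b
          exact hn
        · exact a4 q b b2
      · rintro ⟨a1, a2, a3, a4⟩
        refine ⟨?_, a2, a3, fun q b1 b2 => a4 q (by omega) b2⟩
        rcases a1.eq_or_lt with b | b
        · subst b
          exact (hn a3).elim
        · exact b
    unfold pv
    simp only [e]
  · exact pv_one hFZ d S h.ok s s y ((nx s s).2 ⟨le_rfl, hs, hy, fun r a b => by omega⟩) hx.symm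
  · by_cases c : ∀ t, Nx d s y t → d.x t = y
    · rw [pv_none d S s y c]
      exact Nat.zero_le _
    · push Not at c
      obtain ⟨t, a, b⟩ := c
      rw [pv_one hFZ d S h.ok s t y a b]
      obtain ⟨-, a2, a3, -⟩ := (nx s t).1 a
      obtain ⟨k1, k2⟩ := pv_both hFZ hTP hMIR hLINK hMIRA d S h t y a2 a3 b.symm
      exact k1.trans k2

end Pool.Agent.P.MP_119182_lc.AG
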