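import Pool.Agent.P.MP_119182_lc.AG.Iface
import Pool.Agent.P.MP_119182_lc.AE.TRFC

/-! Step RFD. -/

set_option autoImplicit false

namespace Pool.Agent.P.MP_119182_lc.AG

open Finset
open scoped Classical
open NU (Run mr)
open LU (key tch up low isl Nx within beyond LK)

theorem p_RFD (hBD : S_BD) (hFF : S_FF) (hFZ : S_FZ) :
    S_RFD := by
  intro d S hS s hs
  obtain ⟨-, -, b3, -⟩ := hBD d S hS
  obtain ⟨-, -, -, -, -, f6, f7, -⟩ := hFF d S hS
  obtain ⟨-, -, -, -, z5, z6, -, -⟩ := hFZ d hS.ok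
  have hs1 : s + 1 ≤ d.m := hs
  have hp : ∀ y, key d y → pt d y := fun y hy => ⟨hy.1.le, hy.2.le⟩
  have main : ∀ Y : Finset ℤ, (∀ y ∈ Y, key d y ∧ bd S y (d.rp (s + 1) y) = S.J) →
      (∀ y ∈ Y, ∀ y' ∈ Y, y < y' → y' < d.rp (s + 1) y) →
      ∑ y ∈ Y, Nat.size (F S (s + 1) (d.lp (s + 1) y) (d.rp (s + 1) y) -
        F S (s + 1) y (d.rp (s + 1) y)) ^ 3 ≤ 9 * S.W := by
    intro Y hk hlt
    have t1 := AE.rfc_tel
      (fun y => F S (s + 1) (d.lp (s + 1) y) (d.rp (s + 1) y) - F S (s + 1) y (d.rp (s + 1) y))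
      (fun y => F S (s + 1) y (d.rp (s + 1) y))
      (fun y => F S (s + 1) (d.lp (s + 1) y) (d.rp (s + 1) y))
      (S.J * S.W) Y ((S.J + 1) * S.W)
      (fun y hy => by
        obtain ⟨p1, p2, p3, p4⟩ := z6 (s + 1) y hs1 (hk y hy).1
        have := f7 (s + 1) _ _ _ _ p1 p2 p3.le p4 le_rfl
        omega)
      (fun y hy => by
        obtain ⟨p1, p2, p3, p4⟩ := z6 (s + 1) y hs1 (hk y hy).1
        have := (f6 (s + 1) _ _ (hp y (hk y hy).1) p2 p4).1
        rwa [(hk y hy).2] at this)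
      (fun y hy => by
        obtain ⟨p1, p2, p3, p4⟩ := z6 (s + 1) y hs1 (hk y hy).1
        exact (f6 (s + 1) _ _ p1 p2 (by omega)).2.2.le)
      (fun y hy y' hy' l => by
        obtain ⟨p1, p2, p3, p4⟩ := z6 (s + 1) y hs1 (hk y hy).1
        obtain ⟨p1', p2', p3', p4'⟩ := z6 (s + 1) y' hs1 (hk y' hy').1
        obtain ⟨-, -, q3, -, q5⟩ := z5 (s + 1) y y' hs1 (hk y hy).1 (by omega) (hlt y hy y' hy' l)
        exact f7 (s + 1) _ _ _ _ (hp y (hk y hy).1) p2 (q5 l) (by omega) q3)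
    refine (sum_le_sum fun y _ => AE.rfc_size _).trans ?_
    rw [← mul_sum]
    refine Nat.mul_le_mul_left 9 (t1.trans ?_)
    rw [add_mul, one_mul]
    omega
  rw [← sum_filter_add_sum_filter_not _ (fun y => S.cell S.J y < S.dr s)]
  have h1 := main ((d.keys.filter fun y => dcv S s y (d.rp (s + 1) y)).filter
      fun y => S.cell S.J y < S.dr s)
    (fun y hy => by
      obtain ⟨a1, -⟩ := mem_filter.1 hy
      obtain ⟨a2, a3⟩ := mem_filter.1 a1
      exact ⟨mem_Ioo.1 a2, a3.1⟩)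
    (fun y hy y' hy' _ => by
      obtain ⟨a1, -⟩ := mem_filter.1 hy
      obtain ⟨-, a3⟩ := mem_filter.1 a1
      obtain ⟨-, a4⟩ := mem_filter.1 hy'
      by_contra hc
      have := hS.mono S.J (not_lt.1 hc)
      have := a3.2.2.2
      omega)
  have h2 := main ((d.keys.filter fun y => dcv S s y (d.rp (s + 1) y)).filter
      fun y => ¬ S.cell S.J y < S.dr s)
    (fun y hy => by
      obtain ⟨a1, -⟩ := mem_filter.1 hy
      obtain ⟨a2, a3⟩ := mem_filter.1 a1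
      exact ⟨mem_Ioo.1 a2, a3.1⟩)
    (fun y hy y' hy' _ => by
      obtain ⟨a1, a5⟩ := mem_filter.1 hy
      obtain ⟨a2, a3⟩ := mem_filter.1 a1
      obtain ⟨a6, -⟩ := mem_filter.1 hy'
      obtain ⟨-, a7⟩ := mem_filter.1 a6
      have k : key d y := mem_Ioo.1 a2
      obtain ⟨p1, p2, p3, p4⟩ := z6 (s + 1) y hs1 k
      have e2 := ((b3 y _ (hp y k) p2).2.2.2 p4.ne S.J).1 a3.1.ge
      by_contra hc
      have := hS.mono S.J (not_lt.1 hc)
      have := hS.mono S.J p4.le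
      have := a7.2.2.1
      have := a3.2.2.1
      omega)
  omega

end Pool.Agent.P.MP_119182_lc.AG
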