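import Pool.Agent.P.MP_119182_lc.AG.IfaceB

/-! Step RUN. -/

set_option autoImplicit false

namespace Pool.Agent.P.MP_119182_lc.AG

open Finset
open scoped Classical
open NU (mr)
open LU (key tch up low isl Nx within beyond LK)
open IT (Marks One mq)
open AE (tl PP QM Hot Wit)
open WQ (Wt S_LQ ww gq)

theorem p_RUN (hALL : S_ALL) (hBUD : S_BUD) (hPND : S_PND) (hAVQ : S_AVQ) (hMKA : AE.S_MKA) (hMKB : AE.S_MKB) (hAVA : AE.S_AVA) (hAVC : AE.S_AVC) :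
    S_RUN := by
  intro A B wt R G hwt hT hG hmo
  obtain ⟨Cl, hl⟩ := hALL A wt R hwt hT
  obtain ⟨Cb, hb⟩ := hBUD
  obtain ⟨Ca, ha⟩ := hAVA
  obtain ⟨Cq, hCq⟩ : ∃ Cq, Cq = (300 * A + 1) * B := ⟨_, rfl⟩
  obtain ⟨D, hD⟩ : ∃ D, D = 12 * Ca + Cq * (G 1 + 1) + 4 := ⟨_, rfl⟩
  refine ⟨Cl * (16 * (Cb + 7) ^ 7 + Cb * (16 + D) + 22 + 6 * D + 4 * Cb),
    fun n u m a s v F hn ha1 hw0 => ?_⟩
  obtain ⟨hr, hw⟩ := hw0
  obtain ⟨g, hg⟩ : ∃ g, g = Nat.log 2 (u + 1) + 1 := ⟨_, rfl⟩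
  obtain ⟨P, hP⟩ : ∃ P, P = ∑ i ∈ F, G (Nat.log 2 (Nat.dist (a i) (a (s i)) / 2 ^ u + 1)) := ⟨_, rfl⟩
  rw [← hg, ← hP]
  have g1 : 1 ≤ g := by omega
  have g2 : u + 1 < 2 ^ g := by rw [hg]; exact Nat.lt_pow_succ_log_self (by norm_num) _
  have g3 : 2 ^ g ≤ 2 * (u + 1) := by
    have := Nat.pow_log_le_self 2 (x := u + 1) (by omega)
    rw [hg, pow_succ]; omega
  obtain ⟨σ, hσ⟩ : ∃ σ, σ + 1 = 2 ^ (g + 1) := ⟨2 ^ (g + 1) - 1, by
    have : 0 < 2 ^ (g + 1) := by positivity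
    omega⟩
  have g4 : σ + 1 = 2 * 2 ^ g := by rw [hσ, pow_succ]; omega
  obtain ⟨T', hT'⟩ : ∃ T', T' = Nat.log 2 (n + 1) + 1 + (σ + 1) := ⟨_, rfl⟩
  have t1 : n + 1 < 2 ^ T' :=
    (Nat.lt_pow_succ_log_self (by norm_num) _).trans_le
      (Nat.pow_le_pow_right (by norm_num) (by omega))
  obtain ⟨V, hV⟩ : ∃ V, V = ∑ i ∈ (range m).filter (fun i => i ∉ insert 0 F), (v i + 1) := ⟨_, rfl⟩
  have a1 := ha n u m (g + 1) T' a s v _ hw (by omega)
  have a2 := hAVQ A B wt R G hwt hG hmo u m σ T' a s v F ⟨hr, hw⟩ (by omega)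
  rw [← hCq, ← hP] at a2
  have a3 := hAVC u m (σ + 1) T' a s v _ hw (by omega) (by omega)
  rw [← hV] at a1 ⊢
  obtain ⟨h, hh, hf⟩ := exists_le_of_sum_le (s := range (2 ^ T'))
    (f := fun h : ℕ => NU.MM (fun q => (a (q / 4) : ℤ) + h) n (4 * m) (g + 1) +
      AF.SQ wt σ (T' + 1) m (fun i => (a i : ℤ) + h) s {0} +
      ∑ t ∈ range (4 * m), #(PP (σ + 1) m (fun i => (a i : ℤ) + h) s (insert 0 F) t))
    (g := fun _ => Ca * (V + m + (n + 1 + #(insert 0 F)) * 2 ^ (g + 1)) + Cq * ((G 1 + 1) * m + P) + 4 * m)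
    ⟨0, mem_range.2 (by positivity)⟩ (by
      rw [sum_add_distrib, sum_add_distrib, sum_comm, sum_const, card_range, smul_eq_mul]
      have := sum_le_card_nsmul (range (4 * m)) _ _ fun t _ => a3 t
      rw [card_range, smul_eq_mul, mul_comm (4 * m)] at this
      rw [mul_add, mul_add]
      omega)
  have hh' := mem_range.1 hh
  refine ⟨h, fun d ok d1 d2 d3 d4 => ?_⟩
  have hd : ∀ i < m, 1 ≤ i → s i < i ∧ NU.dst (fun i => (a i : ℤ) + h) (s i) i ≤ 2 ^ u := by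
    intro i hi h1
    obtain ⟨w1, w2⟩ := hr i hi h1
    have e : (Ioc (s i) i).image (fun i => (a i : ℤ) + h) =
        ((Ioc (s i) i).image a).image fun w : ℕ => (w : ℤ) + h := by
      rw [image_image]; rfl
    refine ⟨w1, ?_⟩
    unfold NU.dst
    rw [e]
    exact card_image_le.trans w2
  have u1 : 2 ^ u + 1 ≤ 2 ^ (σ + 1) := by
    have h1 : 2 ^ (u + 1) ≤ 2 ^ (σ + 1) := Nat.pow_le_pow_right (by norm_num) (by omega)
    have h2 : 1 ≤ 2 ^ u := Nat.one_le_two_pow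
    rw [pow_succ 2 u] at h1
    omega
  obtain ⟨p1, p2, p3⟩ := hPND (σ + 1) u m _ s F hd
  obtain ⟨S, ho, s1, s2, s0, s3, s4, s5, s6, s6', s7, s7', s8⟩ := hb (g + 1) n d
    (PD (σ + 1) m (fun i => (a i : ℤ) + h) s F) (F.image fun i => 4 * i)
    (fun t => ((a (s (t / 4)) : ℤ) + h) / 2 ^ (σ + 1)) ok (by omega) (by omega)
    (fun t => by rw [← hσ]; exact (p1 t).trans u1)
    (fun t _ c hc => p2 t c (by rw [← hσ, d4] at hc; exact hc))
  rw [← hσ] at s5 s6' s7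
  have hot : ∀ E : Finset ℕ, 0 ∈ E → Hot (σ + 1) m d.L d.R (fun i => (a i : ℤ) + h) s E ho := by
    refine fun E h0 => ⟨fun i hi => ?_, fun i hi hE => ?_, fun t c ht hc => ?_, s6,
      fun r t h1 h2 h3 h4 => ?_⟩
    · have := ha1 i hi
      omega
    · obtain ⟨w1, w2⟩ := hd i hi (Nat.pos_of_ne_zero fun e => hE (e ▸ h0))
      exact ⟨w1, by omega⟩
    · exact s6' t c (by omega) (by rw [d4]; exact hc)
    · have := s7 r t h1 (by omega) (by rw [d4]; exact h3) (by rw [d4]; exact h4)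
      rw [d4] at this
      exact this
  obtain ⟨⟨c, Z, m1⟩, -, -, m4⟩ := hMKA _ _ _ _ _ _ _ _ (hot {0} (mem_singleton_self 0))
  obtain ⟨-, ⟨c', Z', m2⟩, m3, -⟩ := hMKA _ _ _ _ _ _ _ _ (hot (insert 0 F) (mem_insert_self _ _))
  have m5 := hMKB _ _ _ _ _ _ _ _ (hot {0} (mem_singleton_self 0))
  have m6 := AF.mkc wt σ (T' + 1) _ _ _ _ _ _ _ (hot {0} (mem_singleton_self 0))
  have hJ : d.L / 2 ^ (T' + 1) = d.R / 2 ^ (T' + 1) := by
    have h1 : ((h + n + 1 : ℕ) : ℤ) < ((2 ^ (T' + 1) : ℕ) : ℤ) := by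
      rw [Nat.cast_lt, pow_succ]; omega
    push_cast at h1
    rw [d1, d2, Int.ediv_eq_zero_of_lt (by omega) (by omega),
      Int.ediv_eq_zero_of_lt (by omega) h1]
  have l1 := hl σ (T' + 1) c Z c' Z' d S _ _ s3 hJ (by rw [d3, d4]; exact m1)
    (by rw [d3, d4]; exact m5) (by rw [d3, d4]; exact m2) s4 (fun a b => by rw [s5, s5])
    (fun t ht z hz => by
      rw [s5, d4]
      rcases m4 t (by omega) z hz with h1 | h1 | h1
      · rcases mem_insert.1 h1 with h2 | h2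
        · exact Or.inl (mem_insert.2 (Or.inl h2))
        · rcases p3 t z h2 with h3 | h3
          · exact Or.inl (mem_insert_of_mem h3)
          · exact Or.inr (Or.inr (s7' t _ (Or.inr h3)))
      · exact Or.inr (Or.inl h1)
      · exact Or.inr (Or.inr (s7' t _ (Or.inl h1))))
  have k1 : (d.R - d.L).toNat = n + 1 := by omega
  rw [k1, d3, d4] at l1
  rw [d3, d4] at s8
  refine l1.trans (Nat.add_le_add_left ?_ _)
  rw [mul_assoc Cl]
  refine Nat.mul_le_mul_left Cl ?_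
  have b1 : TV.sw (n + 1) (4 * m) (fun t => insert ((a (t / 4) : ℤ) + h)
      (PP (σ + 1) m (fun i => (a i : ℤ) + h) s (insert 0 F) t)) ≤ n + 1 + 5 * (4 * m +
      ∑ t ∈ range (4 * m), #(PP (σ + 1) m (fun i => (a i : ℤ) + h) s (insert 0 F) t)) := by
    unfold TV.sw
    refine Nat.add_le_add ?_ (Nat.mul_le_mul_left _ ?_)
    · simp [m3]
    · refine (sum_le_sum (g := fun t => 1 + #(PP (σ + 1) m (fun i => (a i : ℤ) + h) s (insert 0 F) t))
        fun t _ => ?_).trans ?_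
      · refine le_trans (Nat.size_le.2 Nat.lt_two_pow_self) ?_
        rw [add_comm 1]
        exact card_insert_le _ _
      · rw [sum_add_distrib, sum_const, card_range, smul_eq_mul, mul_one]
  have b2 : Nat.size (ht S) + 1 ≤ (Cb + 7) * g := by
    have h1 : ht S < 2 ^ (g + 3 + Cb + (g + 1)) := by
      unfold ht
      rw [s1, pow_add, pow_add (2 : ℕ) (g + 3), mul_assoc]
      refine Nat.mul_lt_mul_of_lt_of_le Nat.lt_two_pow_self (s2.trans ?_) (by positivity)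
      exact Nat.mul_le_mul_right _ Nat.lt_two_pow_self.le
    have h2 := Nat.size_le.2 h1
    have h3 : Cb ≤ Cb * g := Nat.le_mul_of_pos_right _ g1
    rw [add_mul]
    omega
  have b3 : (n + 1 + 4 * m) * (S.J + 1) * (Nat.size (ht S) + 1) ^ 7 ≤
      16 * (Cb + 7) ^ 7 * ((n + m) * g ^ 8) :=
    calc _ ≤ (4 * (n + m)) * (4 * g) * ((Cb + 7) * g) ^ 7 :=
          Nat.mul_le_mul (Nat.mul_le_mul (by omega) (by omega)) (Nat.pow_le_pow_left b2 7)
      _ = _ := by ring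
  have b4 : (n + m) * g ≤ (n + m) * g ^ 8 :=
    Nat.mul_le_mul_left _ (Nat.le_self_pow (by norm_num) g)
  have b5 : n + m ≤ (n + m) * g := Nat.le_mul_of_pos_right _ g1
  have b6 : 4 * m * (g + 1 + 2) ≤ 16 * ((n + m) * g) :=
    calc _ ≤ (4 * (n + m)) * (4 * g) := Nat.mul_le_mul (by omega) (by omega)
      _ = _ := by ring
  have b7 : (n + 1 + #(insert 0 F)) * 2 ^ (g + 1) ≤ 12 * (n * (u + 1)) + 4 * (#F * (u + 1)) :=
    calc _ ≤ (3 * n + #F) * (4 * (u + 1)) :=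
          Nat.mul_le_mul (by have := card_insert_le 0 F; omega) (by omega)
      _ = _ := by ring
  have b9 : #S.DR * S.W ≤ Cb * (4 * (#F * (u + 1))) :=
    calc _ ≤ #F * (Cb * (4 * (u + 1))) := Nat.mul_le_mul (s0 ▸ card_image_le)
          (s2.trans (Nat.mul_le_mul_left _ (by omega)))
      _ = _ := by ring
  have b8 : (G 1 + 1) * m + P ≤ (G 1 + 1) * (m + P) := by
    rw [mul_add]
    exact Nat.add_le_add_left (Nat.le_mul_of_pos_left _ (by omega)) _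
  generalize (n + m) * g ^ 8 = X at *
  generalize n * (u + 1) = Y at *
  generalize #F * (u + 1) = U at *
  obtain ⟨H, hH⟩ : ∃ H, H = V + X + Y + U + P := ⟨_, rfl⟩
  rw [← hH]
  have c0 : Cq * ((G 1 + 1) * m + P) ≤ Cq * ((G 1 + 1) * H) :=
    Nat.mul_le_mul_left _ (b8.trans (Nat.mul_le_mul_left _ (by omega)))
  have c1 : Ca * (V + m + (n + 1 + #(insert 0 F)) * 2 ^ (g + 1)) ≤ Ca * (12 * H) :=
    Nat.mul_le_mul_left _ (by omega)
  have c2 : D * H = Ca * (12 * H) + Cq * ((G 1 + 1) * H) + 4 * H := by rw [hD]; ring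
  generalize NU.MM (fun q => (a (q / 4) : ℤ) + h) n (4 * m) (g + 1) = M1 at *
  have c3 : Cb * (4 * m * (g + 1 + 2) + M1) ≤ Cb * (16 * H + D * H) :=
    Nat.mul_le_mul_left _ (by omega)
  have c4 : 16 * (Cb + 7) ^ 7 * X ≤ 16 * (Cb + 7) ^ 7 * H := Nat.mul_le_mul_left _ (by omega)
  have c5 : (16 * (Cb + 7) ^ 7 + Cb * (16 + D) + 22 + 6 * D + 4 * Cb) * H =
      16 * (Cb + 7) ^ 7 * H + Cb * (16 * H + D * H) + 22 * H + 6 * (D * H) + Cb * (4 * H) := by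
    ring
  have c6 : Cb * (4 * U) ≤ Cb * (4 * H) := Nat.mul_le_mul_left _ (by omega)
  omega

end Pool.Agent.P.MP_119182_lc.AG
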