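import Pool.Agent.P.MP_119182_lc.AG.Iface

/-! Step SHR. -/

set_option autoImplicit false

namespace Pool.Agent.P.MP_119182_lc.AG

open Finset
open scoped Classical
open NU (Run mr)
open LU (key tch up low isl Nx within beyond LK)

theorem p_SHR (hGM : S_GM) (_hFZ : S_FZ) (hVS : S_VS) (hLINK : LU.S_LINK) :
    S_SHR := by
  intro d S h p hp q hq hj hs hr hpq
  obtain ⟨t, u⟩ := p
  obtain ⟨t', v⟩ := q
  simp only at hj hs hr hpq ⊢
  have hp' := mem_filter.1 hp
  have hq' := mem_filter.1 hq
  have bp : bad d S t u := (mem_filter.1 hp'.1).2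
  have bq : bad d S t' v := (mem_filter.1 hq'.1).2
  have cp : cln d S t u := hp'.2
  have cq : cln d S t' v := hq'.2
  have tm : t < d.m := bp.1.1.1
  have tm' : t' < d.m := bq.1.1.1
  have ku : key d u := bp.1.1.2.1.1
  have kv : key d v := bq.1.1.2.1.1
  obtain ⟨a1, -, a3, -, -, a6, a7, a8, -, -⟩ := hVS d S h t u bp
  obtain ⟨b1, -, b3, -, -, b6, b7, b8, -, -⟩ := hVS d S h t' v bq
  obtain ⟨-, -, -, -, ⟨g1, g2, -⟩, -, g3⟩ := hGM d S h t u tm
  obtain ⟨-, -, -, -, ⟨k1, k2, -⟩, -, k3⟩ := hGM d S h t' v tm'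
  have hit : it d S t u = it d S t' v := by rw [← g3, ← k3, hj, hs]
  have ru : tch d (ro d S t u) u := (mem_filter.1 a8).2
  have rv : tch d (ro d S t u) v := by rw [hr]; exact (mem_filter.1 b8).2
  have xu : ∀ z, S.cell (bj d S t u) z = it d S t u → z < u ∧ z < v := by
    intro z hz
    constructor
    · by_contra c
      have := h.mono (bj d S t u) (not_lt.1 c)
      omega
    · by_contra c
      have := h.mono (bj d S t u) (not_lt.1 c)
      rw [← hj, ← hit] at b3
      omega
  have rng : ∀ r, r ≤ d.m → ∀ y, key d y → y < d.rp r y := fun r hr y ky =>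
    ((h.ok.tree r hr).bnd y ky.1 ky.2).2.2.1
  have both : ∀ r, ro d S t u ≤ r → r ≤ t → d.lp r u = d.lp r v ∨ r = ro d S t u →
      (tch d r u ∨ tch d r v) → tch d r u ∧ tch d r v ∧ d.x r < u ∧ d.x r < v := by
    intro r r1 r2 e c
    have hx : S.cell (bj d S t u) (d.x r) = it d S t u := by
      rcases c with c | c
      · exact (a1 r (by omega) r2 c).2.1
      · have := (b1 r (by omega) (by omega) c).2.1
        rw [← hj, ← hit] at this
        exact this
    obtain ⟨x1, x2⟩ := xu _ hx
    have y1 := rng r (by omega) u ku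
    have y2 := rng r (by omega) v kv
    rcases e with e | e
    · rcases c with c | c
      · exact ⟨c, ⟨kv, by have := c.2.1; omega, by omega⟩, x1, x2⟩
      · exact ⟨⟨ku, by have := c.2.1; omega, by omega⟩, c, x1, x2⟩
    · subst e
      exact ⟨ru, rv, x1, x2⟩
  have step : ∀ r, ro d S t u ≤ r → r < t → d.lp r u = d.lp r v ∨ r = ro d S t u →
      d.lp (r + 1) u = d.lp (r + 1) v := by
    intro r r1 r2 e
    by_cases c : tch d r u ∨ tch d r v
    · obtain ⟨c1, c2, x1, x2⟩ := both r r1 r2.le e c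
      have n1 := cp r (by omega) r2
      have n2 := cq r (by omega) (by omega)
      have e1 : d.lp (r + 1) u = d.x r := by
        by_contra ne
        exact n1 ⟨c1, Or.inl ⟨x1, ne⟩⟩
      have e2 : d.lp (r + 1) v = d.x r := by
        by_contra ne
        exact n2 ⟨c2, Or.inl ⟨x2, ne⟩⟩
      rw [e1, e2]
    · have c1 : ¬ tch d r u := fun a => c (Or.inl a)
      have c2 : ¬ tch d r v := fun a => c (Or.inr a)
      have L := (hLINK d h.ok r (by omega)).2.2.1
      rcases e with e | e
      · rw [(L u ku c1).1, (L v kv c2).1, e]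
      · subst e
        exact absurd ru c1
  have ind : ∀ r, ro d S t u ≤ r → r ≤ t → d.lp r u = d.lp r v ∨ r = ro d S t u := by
    intro r
    induction r with
    | zero => intro r1 _; right; omega
    | succ r ih =>
      intro r1 r2
      by_cases e : r + 1 = ro d S t u
      · exact Or.inr e
      · exact Or.inl (step r (by omega) (by omega) (ih (by omega) (by omega)))
  intro r hr0
  unfold vs at hr0 ⊢
  obtain ⟨hr1, hr2⟩ := mem_filter.1 hr0
  obtain ⟨hr3, hr4⟩ := mem_Icc.1 hr1
  have hro : ro d S t u ≤ r := Nat.sInf_le ⟨hr3, hr2⟩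
  have fin := both r hro hr4 (ind r hro hr4) (Or.inl hr2)
  exact mem_filter.2 ⟨mem_Icc.2 ⟨by omega, by omega⟩, fin.2.1⟩

end Pool.Agent.P.MP_119182_lc.AG
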