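import Pool.Agent.P.MP_119182_lc.AG.IfaceB

/-! Step WARM. -/

set_option autoImplicit false

namespace Pool.Agent.P.MP_119182_lc.AG

open Finset
open scoped Classical
open NU (mr)
open LU (key tch up low isl Nx within beyond LK)
open IT (Marks One mq)
open AE (tl PP QM Hot Wit)
open WQ (Wt S_LQ ww gq)

namespace W35

/-- Links inside a top item and links over a heavy item are warm. -/
theorem point (hBD : S_BD) (hFF : S_FF) (hTP : S_TP) (hLNK : S_LNK)
    {d : NU.Run} {S : Sys} (h : OK d S) (hp : ∀ j < S.J, ∀ t c, 1 ≤ S.om j t c) {t : ℕ} {u : ℤ}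
    (hr : rl d t u)
    (hc : S.cell S.J (low d t u) = S.cell S.J (d.rp t u) ∨
      ∃ z, d.x t < z ∧ z ≤ d.rp t u ∧ S.cell S.J z ≠ S.cell S.J (d.x t) ∧
        2 ≤ S.om S.J t (S.cell S.J z)) : wm d S t u := by
  obtain ⟨⟨⟨tm, c1, a1⟩, a2, -⟩, l2, -⟩ := hLNK d S h t u hr
  obtain ⟨⟨-, htc, hx⟩, -⟩ := hr
  obtain ⟨-, -, ur, pr'⟩ := (h.ok.tree t tm.le).bnd u htc.1.1 htc.1.2
  have pr : pt d (d.rp t u) := ⟨(htc.1.1.trans ur).le, pr'⟩
  have kx := (h.ok.step t tm).mem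
  have px : pt d (d.x t) := ⟨kx.1.le, kx.2.le⟩
  have pu : pt d u := ⟨htc.1.1.le, htc.1.2.le⟩
  have pp : pt d (low d t u) := ⟨c1.1.1.le, c1.1.2.le⟩
  obtain ⟨-, -, b3, -⟩ := hBD d S h
  obtain ⟨-, f2, -⟩ := hFF d S h
  have p6 := (hTP d S h t (low d t u) (d.rp t u) tm c1.1 a1 (a2.trans ur) pr).2.2.2.2.2
  by_contra hw
  unfold wm at hw
  rw [not_or, not_or] at hw
  obtain ⟨w1, w2, w3⟩ := hw
  obtain ⟨e1, -⟩ := l2 w2
  have hJ : bj d S t u ≤ S.J := (b3 _ _ px pu).2.1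
  have k := h.mono (bj d S t u) (a2.trans ur).le
  have eJ : bj d S t u = S.J := by
    by_contra ne
    exact w3 ((hp _ (by omega) t _).trans (f2 _ t _ _ _ le_rfl k))
  have g2 : gp d S t u = tp d S t (low d t u) (d.rp t u) - F S t (low d t u) (d.rp t u) := rfl
  have ne : S.cell S.J (low d t u) ≠ S.cell S.J (d.rp t u) := fun e => by
    have := p6 (by rw [e1, eJ]; exact e)
    omega
  obtain ⟨z, z1, z2, z3, z4⟩ := hc.resolve_left ne
  obtain ⟨-, q1, -, q2⟩ := b3 _ _ pp pr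
  have eb : bd S (low d t u) (d.rp t u) = S.J :=
    le_antisymm q1 ((q2 (a2.trans ur).ne _).2 ne)
  have m0 : mw d S t u = sm S S.J t (S.cell S.J (low d t u)) (S.cell S.J (d.rp t u)) := by
    unfold mw; rw [eJ]
  have eF : F S t (low d t u) (d.rp t u) = S.J * S.W := by
    unfold F
    rw [eb, ← m0, show mw d S t u = 0 by omega, Nat.log_zero_right, add_zero]
  have k1 := h.mono S.J z1.le
  have k2 := h.mono S.J z2
  have s1 : 2 ^ 1 ≤ sm S S.J t (S.cell S.J (d.x t) + 1) (S.cell S.J (d.rp t u)) :=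
    z4.trans (f2 _ t _ _ _ (by omega) k2)
  have s2 := Nat.le_log_of_pow_le (by norm_num) s1
  have eT : S.J * S.W + 1 ≤ tp d S t (low d t u) (d.rp t u) := by
    unfold tp
    rw [if_neg (by rw [e1, eJ, eb]; exact lt_irrefl _)]
    unfold pf en it
    rw [e1, eJ, if_neg ne]
    exact Nat.add_le_add_left (le_max_of_le_right s2) _
  omega

/-- Counting upper nodes with a warm link. -/
theorem count {d : NU.Run} {S : Sys} (c : ℕ → ℤ → Prop)
    (hc : ∀ t u, rl d t u → low d t u = d.lp (t + 1) u → c t u → wm d S t u) (h : OK d S) :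
    ∑ t ∈ range d.m, #((d.U t).filter (c t)) ≤ #(WM d S) := by
  rw [← card_sigma]
  refine card_le_card_of_injOn (fun p => (p.1, p.2)) (fun p hp => ?_) ?_
  · obtain ⟨t, u⟩ := p
    simp only [coe_sigma, Set.mem_sigma_iff, mem_coe, mem_range, mem_filter, NU.Run.U, NU.Run.P,
      mem_Ioo] at hp
    obtain ⟨tm, ⟨⟨⟨x1, x2⟩, x3⟩, x4⟩, x5⟩ := hp
    have hm := (h.ok.step t tm).mem
    have ku : LU.key d u := ⟨hm.1.trans x1, x2⟩
    have b := (h.ok.tree t tm.le).bnd u ku.1 ku.2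
    have tc : tch d t u := ⟨ku, x3, x1.trans b.2.2.1⟩
    have r : rl d t u := ⟨⟨tm, tc, x1⟩, tc, Or.inl ⟨x1, x4⟩⟩
    exact mem_coe.2 (mem_filter.2 ⟨mem_filter.2 ⟨mem_product.2 ⟨mem_range.2 tm, mem_Ioo.2 ku⟩, r⟩,
      hc t u r (if_pos x1) x5⟩)
  · rintro ⟨a, b⟩ - ⟨c, e⟩ - q
    simp only [Prod.mk.injEq] at q
    obtain ⟨rfl, rfl⟩ := q
    rfl

end W35

theorem p_WARM (hBD : S_BD) (hFF : S_FF) (hTP : S_TP) (hLNK : S_LNK) (_hLINK : LU.S_LINK) :
    S_WARM := by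
  intro σ d S Q Q' h hp hc hq
  refine ⟨le_trans (le_of_eq (sum_congr rfl fun t _ => by unfold IT.int; congr))
    (W35.count (fun t u => IT.bl σ (d.lp (t + 1) u) = IT.bl σ (d.rp t u))
    (fun t u r e c => W35.point hBD hFF hTP hLNK h hp r (Or.inl ((hc _ _).2 (e ▸ c)))) h), ?_⟩
  refine le_trans ?_ (Nat.add_le_add_left (W35.count
    (fun t u => ∃ z, d.x t < z ∧ z ≤ d.rp t u ∧ S.cell S.J z ≠ S.cell S.J (d.x t) ∧
      2 ≤ S.om S.J t (S.cell S.J z))
    (fun t u r _ c => W35.point hBD hFF hTP hLNK h hp r (Or.inr c)) h) _)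
  rw [← sum_add_distrib]
  refine sum_le_sum fun t ht => ?_
  have tm := mem_range.1 ht
  unfold IT.up
  refine le_trans (card_le_card fun u hu => ?_) (card_union_le _ _)
  obtain ⟨hu, z, hz, z1, z2⟩ := mem_filter.1 hu
  unfold tl at hz
  rw [if_pos tm, mem_filter] at hz
  have z3 := hz.2.resolve_left z1.ne'
  rcases hq t tm z hz.1 with k | k | k
  · exact mem_union_left _ (mem_filter.2 ⟨hu, z, k, z1, z2⟩)
  · exact absurd k z3
  · exact mem_union_right _ (mem_filter.2 ⟨hu, z, z1, z2.le, fun e => z3 ((hc _ _).1 e), k⟩)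

end Pool.Agent.P.MP_119182_lc.AG
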