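import Pool.Agent.P.MP_119182_lc.AG.Base

/-! The steps of the abstract bound. -/

set_option autoImplicit false

namespace Pool.Agent.P.MP_119182_lc.AG

open Finset
open scoped Classical
open NU (Run mr)
open LU (key tch up low isl Nx within beyond LK)

-- deps:
/-- Bands. -/
def S_BD : Prop :=
  ∀ (d : Run) (S : Sys), OK d S →
    (∀ j k a b, j ≤ k → S.cell j a = S.cell j b → S.cell k a = S.cell k b) ∧
    (∀ j a b c, a ≤ b → b ≤ c → S.cell j a = S.cell j c →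
      S.cell j a = S.cell j b ∧ S.cell j b = S.cell j c) ∧
    (∀ a b, pt d a → pt d b → bd S a b = bd S b a ∧ bd S a b ≤ S.J ∧
      (∀ j, bd S a b ≤ j ↔ S.cell (j + 1) a = S.cell (j + 1) b) ∧
      (a ≠ b → ∀ j, j ≤ bd S a b ↔ S.cell j a ≠ S.cell j b)) ∧
    ∀ a b c, pt d a → pt d c → a ≤ b → b ≤ c → bd S a c = max (bd S a b) (bd S b c)

-- deps: BD
/-- Sums and levels. -/
def S_FF : Prop :=
  ∀ (d : Run) (S : Sys), OK d S →
    (∀ j t a b a' b', a' ≤ a → b ≤ b' → sm S j t a b ≤ sm S j t a' b') ∧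
    (∀ j t a b c, a ≤ c → c ≤ b → S.om j t c ≤ sm S j t a b) ∧
    (∀ j t a b a' b' a'' b'', a'' ≤ a → a'' ≤ a' → b < a' → b ≤ b'' → b' ≤ b'' →
      sm S j t a b + sm S j t a' b' ≤ sm S j t a'' b'') ∧
    (∀ j t a b c c', pt d a → pt d b → S.cell (j + 1) a = S.cell (j + 1) b →
      S.cell j a ≤ c → c' ≤ S.cell j b → Nat.log 2 (sm S j t c c') < S.W) ∧
    1 ≤ S.W ∧
    (∀ t a b, pt d a → pt d b → a < b → bd S a b * S.W ≤ F S t a b ∧
      F S t a b < (bd S a b + 1) * S.W ∧ F S t a b < ht S) ∧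
    (∀ t a b a' b', pt d a' → pt d b' → a' ≤ a → a < b → b ≤ b' → F S t a b ≤ F S t a' b') ∧
    ∀ j s t c c', s ≤ t → t ≤ d.m →
      (∀ r, s ≤ r → r < t → S.cell j (d.x r) < c ∨ c' < S.cell j (d.x r)) →
      (sm S j t c c' ≤ sm S j s c c' ∧ ∀ e, c ≤ e → e ≤ c' → S.om j t e ≤ S.om j s e) ∧
      ((∀ r e, s ≤ r → r < t → drp S j r e → e < c ∨ c' < e) → sm S j t c c' = sm S j s c c')

-- deps:
/-- The least level. -/
def S_GM : Prop :=
  ∀ (d : Run) (S : Sys), OK d S → ∀ t y, t < d.m →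
    sg d S t y ≤ t ∧
    (∀ r, sg d S t y ≤ r → r < t → tch d r y → S.cell (bj d S t y) (d.x r) = it d S t y) ∧
    (∀ s, (∀ r, s ≤ r → r < t → tch d r y → S.cell (bj d S t y) (d.x r) = it d S t y) →
      sg d S t y ≤ s) ∧
    (∀ s, sg d S t y ≤ s → s ≤ t → gm d S t y ≤ lo d S t y s) ∧
    (sg d S t y ≤ st d S t y ∧ st d S t y ≤ t ∧ lo d S t y (st d S t y) = gm d S t y) ∧
    (∀ s, st d S t y < s → s ≤ t → gm d S t y < lo d S t y s) ∧
    S.cell (bj d S t y) (d.x (st d S t y)) = it d S t y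

-- deps: LU.LINK LU.HOLD
/-- Frozen nodes and nodes seen from the left. -/
def S_FZ : Prop :=
  ∀ d : Run, d.OK →
    (∀ s t y, key d y → s ≤ t → t ≤ d.m → (∀ r, s ≤ r → r < t → ¬ tch d r y) →
      d.lp t y = d.lp s y ∧ d.rp t y = d.rp s y ∧
      ∀ r, s ≤ r → r < t → d.x r ≤ d.lp s y ∨ d.rp s y ≤ d.x r) ∧
    (∀ s t y, key d y → (Nx d s y t ↔
      s ≤ t ∧ t < d.m ∧ tch d t y ∧ ∀ r, s ≤ r → r < t → ¬ tch d r y)) ∧
    (∀ s t t' y, Nx d s y t → Nx d s y t' → t = t') ∧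
    (∀ s t y, key d y → s ≤ t → t ≤ d.m → (∀ r, s ≤ r → r < t → tch d r y → d.x r < y) →
      d.lp s y ≤ d.lp t y ∧ d.rp s y ≤ d.rp t y) ∧
    (∀ s y z, s ≤ d.m → key d y → d.lp s y < z → z < d.rp s y →
      key d z ∧ d.lp s y ≤ d.lp s z ∧ d.rp s z ≤ d.rp s y ∧
      (z < y → d.rp s z ≤ y) ∧ (y < z → y ≤ d.lp s z)) ∧
    (∀ s y, s ≤ d.m → key d y → pt d (d.lp s y) ∧ pt d (d.rp s y) ∧ d.lp s y < y ∧ y < d.rp s y) ∧
    (∀ s, s < d.m → key d (d.x s)) ∧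
    ∀ t u u', rl d t u → rl d t u' → u < u' → d.rp t u ≤ low d t u'

-- deps: BD FF GM
/-- The funded level. -/
def S_TP : Prop :=
  ∀ (d : Run) (S : Sys), OK d S → ∀ t y r, t < d.m → key d y → d.x t < y → y < r → pt d r →
    F S t y r ≤ tp d S t y r ∧ tp d S t y r ≤ F S t (d.x t) r ∧ tp d S t y r < ht S ∧
    (∀ e z, pt d z → S.cell (bj d S t y + 1) z = S.cell (bj d S t y + 1) (d.x t) →
      e ≤ S.cell (bj d S t y) z → bj d S t y * S.W ≤ pf d S t y e ∧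
      pf d S t y e < (bj d S t y + 1) * S.W) ∧
    (∀ e e', e ≤ e' → pf d S t y e ≤ pf d S t y e') ∧
    (S.cell (bj d S t y) y = S.cell (bj d S t y) r → F S t y r < tp d S t y r)

-- deps: BD FF GM FZ TP LU.LINK
/-- Kept and merged tokens. -/
def S_KEEP : Prop :=
  ∀ (d : Run) (S : Sys), OK d S → ∀ s t y, rt d s y → ¬ up d s y → Nx d (s + 1) y t →
    d.x t < y → ¬ rf d S t y →
    VR d S t y ≤ tp d S s y (d.rp (s + 1) y) - F S s y (d.rp (s + 1) y)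

-- deps: BD FF GM FZ TP LU.LINK
/-- Upper nodes of links of either side. -/
def S_UPP : Prop :=
  ∀ (d : Run) (S : Sys), OK d S → ∀ s t y, s < d.m → up d s y → Nx d (s + 1) y t →
    d.x t < y → ¬ rf d S t y →
    VR d S t y + F S s y (d.rp (s + 1) y) ≤ F S s (d.lp (s + 1) y) (d.rp (s + 1) y)

-- deps: LU.LINK FZ
/-- Births are refunds. -/
def S_BIR : Prop :=
  ∀ (d : Run) (S : Sys), OK d S → ∀ s t y, s < d.m → tch d s y → y < d.x s → ¬ up d s y →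
    Nx d (s + 1) y t → rf d S t y

-- deps: LU.MIRA
/-- The mirror. -/
def S_MIR : Prop :=
  ∀ (d : Run) (S : Sys),
    (OK d S → OK d.mir S.mir) ∧ d.mir.mir = d ∧ S.mir.mir = S ∧ ht S.mir = ht S ∧
    (∀ a b, bd S.mir (mr a) (mr b) = bd S a b) ∧
    (OK d S → ∀ t a b, pt d a → pt d b → F S.mir t (mr b) (mr a) = F S t a b) ∧
    BB0 d.mir S.mir = BB0 d S ∧ BB1 d.mir S.mir = BB1 d S ∧
    (∀ t y, y ≠ d.x t → pre d.mir S.mir t (mr y) = pre d S t y ∧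
      sh d.mir S.mir t (mr y) = sh d S t y ∧ gg d.mir S.mir t (mr y) = gg d S t y) ∧
    (∀ s y, pv d.mir S.mir s (mr y) = pv d S s y) ∧
    (∀ s y, isl d.mir s (mr y) ↔ isl d s y) ∧
    ∀ s y t, (within d.mir s (mr y) t ↔ within d s y t) ∧
      (beyond d.mir s (mr y) t ↔ beyond d s y t)

-- deps: FZ TP MIR LU.LINK LU.MIRA
/-- The value before the next touch. -/
def S_PV : Prop :=
  ∀ (d : Run) (S : Sys), OK d S → ∀ s y, key d y →
    (∀ t, Nx d s y t → d.x t ≠ y → pv d S s y = pre d S t y) ∧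
    ((∀ t, Nx d s y t → d.x t = y) → pv d S s y = 0) ∧
    (s < d.m → ¬ tch d s y → pv d S (s + 1) y = pv d S s y) ∧
    (s < d.m → tch d s y → y ≠ d.x s → pv d S s y = pre d S s y ∧ pre d S s y ≤ sh d S s y ∧
      sh d S s y ≤ ht S) ∧
    pv d S s y ≤ ht S

-- deps: FZ PV KEEP BIR MIR LU.LINK LU.MIRA
/-- Touches from the left of nodes that are not upper nodes; the access. -/
def S_PA : Prop :=
  ∀ (d : Run) (S : Sys), OK d S → ∀ s < d.m,
    pv d S (s + 1) (d.x s) = 0 ∧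
    (∀ y t, rt d s y → ¬ up d s y → Nx d (s + 1) y t → beyond d s y t → pv d S (s + 1) y = 0) ∧
    (∀ y, rt d s y → ¬ up d s y → ¬ isl d s y → pv d S (s + 1) y ≤ shR d S s y) ∧
    ∀ u, rl d s u → pv d S (s + 1) (low d s u) ≤ gp d S s u

-- deps: FF FZ TP PV UPP MIR LU.LINK LU.MIRA
/-- The two donors of a right link. -/
def S_PB : Prop :=
  ∀ (d : Run) (S : Sys), OK d S → ∀ s u, rl d s u →
    gp d S s u ≤ shR d S s u ∧ gp d S s u ≤ shR d S s (low d s u) ∧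
    ((∀ t, Nx d (s + 1) u t → within d s u t) → pv d S (s + 1) u + gp d S s u ≤ shR d S s u) ∧
    (¬ (∀ t, Nx d (s + 1) u t → within d s u t) →
      pv d S (s + 1) u + gp d S s u ≤ shR d S s (low d s u))

-- deps: FZ PV PA PB MIR LU.LINK LU.PI LU.MIRA
def S_POK : Prop := ∀ (d : Run) (S : Sys), OK d S → LU.OK d (val d S)

-- deps: PV MIR LU.MIRA
def S_PRI : Prop :=
  ∀ (d : Run) (S : Sys), OK d S → LU.price d (val d S) ≤
    ((d.R - d.L).toNat + d.m) * Nat.size (ht S) ^ 3 +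
      8 * (REF d S + RAI d S + REF d.mir S.mir + RAI d.mir S.mir)

-- deps: BD FF GM FZ TP
/-- The need of a refunded token, at the state after the last access to the item. -/
def S_RFV : Prop :=
  ∀ (d : Run) (S : Sys), OK d S → ∀ t y s, rt d t y → rfa d S t y s →
    (∀ s', rfa d S t y s' → s' ≤ s) → d.rp (s + 1) y = d.rp t y ∧
    VR d S t y ≤ F S (s + 1) (d.lp (s + 1) y) (d.rp (s + 1) y) - F S (s + 1) y (d.rp (s + 1) y)

-- deps: BD FF FZ
/-- The needs telescope down the path to the boundary of the item. -/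
def S_RFC : Prop :=
  ∀ (d : Run) (S : Sys), OK d S → ∀ s j, s < d.m →
    ∑ y ∈ d.keys.filter (fun y => bd S y (d.rp (s + 1) y) = j ∧
        S.cell j (d.x s) = S.cell j (d.rp (s + 1) y)),
      Nat.size (F S (s + 1) (d.lp (s + 1) y) (d.rp (s + 1) y) -
        F S (s + 1) y (d.rp (s + 1) y)) ^ 3 ≤ Nat.size (ht S) ^ 3 + 9 * B1 d S j s

-- deps: BD FF FZ
/-- The needs of the tokens that meet one item of the top band (two nested families). -/
def S_RFD : Prop :=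
  ∀ (d : Run) (S : Sys), OK d S → ∀ s, s < d.m →
    ∑ y ∈ d.keys.filter (fun y => dcv S s y (d.rp (s + 1) y)),
      Nat.size (F S (s + 1) (d.lp (s + 1) y) (d.rp (s + 1) y) -
        F S (s + 1) y (d.rp (s + 1) y)) ^ 3 ≤ 18 * S.W

-- deps: BD FZ RFV RFC RFD
def S_REF : Prop :=
  ∀ (d : Run) (S : Sys), OK d S →
    REF d S ≤ d.m * (S.J + 1) * Nat.size (ht S) ^ 3 + 9 * BB1 d S + 18 * (#S.DR * S.W)

-- deps: BD FZ LU.LINK
def S_CRS : Prop :=
  ∀ (d : Run) (S : Sys), OK d S → #((RL d).filter fun p => crs d S p.1 p.2) ≤ d.m * (S.J + 1)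

-- deps: BD GM FZ
/-- Outer nodes of one band are younger. -/
def S_ORD : Prop :=
  ∀ (d : Run) (S : Sys), OK d S → ∀ t p u, rt d t p → rt d t u → p ≤ u →
    bj d S t p = bj d S t u →
    sg d S t p ≤ sg d S t u ∧ gm d S t p ≤ gm d S t u ∧ st d S t p ≤ st d S t u

-- deps: BD FF GM FZ TP ORD LU.LINK
/-- One right link that stays in its band. -/
def S_LNK : Prop :=
  ∀ (d : Run) (S : Sys), OK d S → ∀ t u, rl d t u →
    (rt d t (low d t u) ∧ low d t u < u ∧ d.rp t (low d t u) = u ∧ isl d t (low d t u) ∧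
      ¬ up d t (low d t u) ∧ shR d S t u ≤ ht S ∧ shR d S t (low d t u) ≤ ht S ∧
      DD d S t u ≤ ht S) ∧
    (¬ crs d S t u → bj d S t (low d t u) = bj d S t u ∧
      bd S (d.x t) (d.rp t u) = bj d S t u ∧
      shR d S t u - VR d S t u ≤ DD d S t u ∧
      shR d S t (low d t u) - VR d S t (low d t u) ≤ DD d S t u) ∧
    (bad d S t u → S.cell (bj d S t u) (low d t u) < S.cell (bj d S t u) (d.rp t u) ∧
      it d S t u < S.cell (bj d S t u) (low d t u) ∧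
      AA d S t u = pf d S t (low d t u) (S.cell (bj d S t u) (d.rp t u)) ∧
      F S t (low d t u) (d.rp t u) = bj d S t u * S.W + Nat.log 2 (sm S (bj d S t u) t
        (S.cell (bj d S t u) (low d t u)) (S.cell (bj d S t u) (d.rp t u))))

-- deps: CRS LNK LU.LINK
/-- The raises and the links without a gap. -/
def S_RAI : Prop :=
  ∀ (d : Run) (S : Sys), OK d S →
    RAI d S ≤ 2 * (d.m * (S.J + 1) * Nat.size (ht S) ^ 3) + 2 * BC d S ∧
    #(WM d S) ≤ #((RL d).filter fun p => 1 ≤ gp d S p.1 p.2) + d.m * (S.J + 1) + BC d S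

-- deps: FF GM FZ TP ORD LNK
/-- Bad links of one time, band, minimum, scale and annulus. -/
def S_DQ : Prop :=
  ∀ (d : Run) (S : Sys), OK d S → ∀ t j s i a,
    #((BAD d S).filter fun p => p.1 = t ∧ bj d S p.1 p.2 = j ∧ st d S p.1 p.2 = s ∧
      sc d S p.1 p.2 = i ∧ an d S p.1 p.2 = a) ≤ 6

-- deps: BD GM FZ LNK LU.LINK
/-- Before a bad link its upper node is seen from the item only and holds the nodes between. -/
def S_VS : Prop :=
  ∀ (d : Run) (S : Sys), OK d S → ∀ t u, bad d S t u →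
    (∀ r, sg d S t u ≤ r → r ≤ t → tch d r u → d.x r < u ∧
      S.cell (bj d S t u) (d.x r) = it d S t u ∧ (r < t → up d r u → rl d r u ∧ crs d S r u)) ∧
    (∀ r z, sg d S t u ≤ r → r ≤ t → it d S t u < S.cell (bj d S t u) z → z ≤ u →
      d.lp r u < z ∧ (tch d r z → tch d r u)) ∧
    it d S t u < S.cell (bj d S t u) u ∧ bj d S t u ≤ S.J ∧ st d S t u < d.m ∧
    st d S t u ≤ ro d S t u ∧ ro d S t u ≤ t ∧ ro d S t u ∈ vs d S t u ∧ t ∈ vs d S t u ∧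
    ∀ r, st d S t u ≤ r → r < ro d S t u → ¬ tch d r u

-- deps: VS CRS
def S_TNT : Prop :=
  ∀ (d : Run) (S : Sys), OK d S →
    #((BAD d S).filter fun p => ¬ cln d S p.1 p.2) ≤ d.m * (S.J + 1)

-- deps: GM VS
def S_OLD : Prop :=
  ∀ (d : Run) (S : Sys), OK d S → ∑ p ∈ CL d S, #(vs d S p.1 p.2) ≤ d.NR

-- deps: GM FZ VS LU.LINK
/-- Clean links with the same minimum time and first view share their visits. -/
def S_SHR : Prop :=
  ∀ (d : Run) (S : Sys), OK d S → ∀ p ∈ CL d S, ∀ q ∈ CL d S,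
    bj d S p.1 p.2 = bj d S q.1 q.2 → st d S p.1 p.2 = st d S q.1 q.2 →
    ro d S p.1 p.2 = ro d S q.1 q.2 → p.1 ≤ q.1 → vs d S p.1 p.2 ⊆ vs d S q.1 q.2

-- deps: DQ SHR VS
def S_FIB : Prop :=
  ∀ (d : Run) (S : Sys), OK d S → ∀ j s i ρ a k,
    #((CF d S j s i).filter fun p => ro d S p.1 p.2 = ρ ∧ an d S p.1 p.2 = a ∧
      #(vs d S p.1 p.2) = k) ≤ 6

-- deps: BD FF GM VS
/-- The level before the item of the upper node is fixed at the minimum time. -/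
def S_QS : Prop :=
  ∀ (d : Run) (S : Sys), OK d S → ∀ j s i, ∀ p ∈ CF d S j s i,
    j * S.W + Nat.log 2 (S.om j s (S.cell j (d.x s))) ≤ QQ d S p.1 p.2 ∧
    QQ d S p.1 p.2 ≤ j * S.W + Nat.log 2 (S.om j s (S.cell j (d.x s))) + B0 d S j s ∧
    ∀ q ∈ CF d S j s i, p.2 ≤ q.2 →
      (q.1 ≤ p.1 → QQ d S p.1 p.2 ≤ QQ d S q.1 q.2) ∧ ro d S q.1 q.2 ≤ ro d S p.1 p.2 ∧
      (p.1 < q.1 → #(vs d S p.1 p.2) < #(vs d S q.1 q.2))

-- deps:
/-- Two counts. -/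
def S_CHN : Prop :=
  (∀ P : Finset (ℕ × ℕ), (∀ p ∈ P, ∀ q ∈ P, p.1 < q.1 → q.2 ≤ p.2) →
    #P ≤ #(P.image Prod.fst) + #(P.image Prod.snd)) ∧
  (∀ (P : Finset (ℕ × ℕ)) (m : ℕ), (∀ p ∈ P, p.1 < m ∧ p.2 < m) →
    (∀ s1 s2 r r', (s1, r) ∈ P → (s2, r) ∈ P → (s2, r') ∈ P → s1 < s2 → r' ≤ r) → #P ≤ 2 * m) ∧
  (∀ c B e : ℕ, 1 ≤ e → #(Icc (c / e) ((c + B) / e)) ≤ B / e + 2) ∧
  ∃ C : ℕ, ∀ B I : ℕ, ∑ i ∈ range I, (i + 1) ^ 6 * (B / 2 ^ (i - 1)) ≤ C * B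

-- deps: QS CHN
def S_INC : Prop :=
  ∀ (d : Run) (S : Sys), OK d S → ∀ j s i k,
    #(((CF d S j s i).filter fun p => #(vs d S p.1 p.2) = k).image
        fun p => (ro d S p.1 p.2, an d S p.1 p.2)) ≤
      #((PR d S j).filter fun q => q.1 = s) + B0 d S j s / 2 ^ (i - 1) + 2

-- deps: GM VS CHN
def S_PAIR : Prop := ∀ (d : Run) (S : Sys), OK d S → ∀ j, #(PR d S j) ≤ 2 * d.m

-- deps: FIB INC PAIR VS
/-- The young clean links of one band and scale. -/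
def S_YNG : Prop :=
  ∀ (d : Run) (S : Sys), OK d S → ∀ j i θ,
    #((CL d S).filter fun p => bj d S p.1 p.2 = j ∧ sc d S p.1 p.2 = i ∧
      #(vs d S p.1 p.2) ≤ θ) ≤ 6 * θ * (4 * d.m + ∑ s ∈ range d.m, B0 d S j s / 2 ^ (i - 1))

-- deps: LNK VS TNT OLD YNG CHN
def S_BC : Prop :=
  ∃ C : ℕ, ∀ (K : ℕ) (d : Run) (S : Sys), OK d S →
    K * BC d S ≤ d.NR +
      C * (K + 1) ^ 2 * (BB0 d S + d.m * (S.J + 1) * (Nat.size (ht S) + 1) ^ 7)

-- deps: MIR LU.MIRA LU.LINK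
/-- The links with a gap, by sides. -/
def S_ZG : Prop :=
  ∀ (d : Run) (S : Sys), OK d S →
    #((RL d).filter fun p => 1 ≤ gp d S p.1 p.2) +
      #((RL d.mir).filter fun p => 1 ≤ gp d.mir S.mir p.1 p.2) ≤
      #((LK d).filter fun p => 1 ≤ (val d S).g p.1 p.2)

-- deps: LU.T POK PRI REF RAI BC ZG MIR
def S_ABS : Prop :=
  ∀ K : ℕ, ∃ C : ℕ, ∀ (d : Run) (S : Sys), OK d S →
    K * (#(WM d S) + #(WM d.mir S.mir)) ≤ d.NR + d.mir.NR +
      C * (((d.R - d.L).toNat + d.m) * (S.J + 1) * (Nat.size (ht S) + 1) ^ 7 +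
        BB0 d S + BB1 d S + #S.DR * S.W)

end Pool.Agent.P.MP_119182_lc.AG
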