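import Pool.Agent.P.MP_119182_lc.AG.Iface
import Pool.Agent.P.MP_119182_lc.AF.Link

/-! Far witnesses, marks, shifts and the end. -/

set_option autoImplicit false

namespace Pool.Agent.P.MP_119182_lc.AG

open Finset
open scoped Classical
open NU (mr)
open LU (key tch up low isl Nx within beyond LK)
open IT (Marks One mq)
open AE (tl PP QM Hot Wit)
open WQ (Wt S_LQ ww gq)

-- deps: BD FF TP LNK LU.LINK
/-- Links inside one item and links over a heavy item are paid by the system. -/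
def S_WARM : Prop :=
  ∀ (σ : ℕ) (d : NU.Run) (S : Sys) (Q Q' : ℕ → Finset ℤ), OK d S →
    (∀ j < S.J, ∀ t c, 1 ≤ S.om j t c) →
    (∀ a b, S.cell S.J a = S.cell S.J b ↔ a / 2 ^ σ = b / 2 ^ σ) →
    (∀ t < d.m, ∀ z ∈ Q t, z ∈ Q' t ∨ z / 2 ^ σ = d.x t / 2 ^ σ ∨
      2 ≤ S.om S.J t (S.cell S.J z)) →
    ∑ t ∈ range d.m, IT.int σ d t ≤ #(WM d S) ∧
      ∑ t ∈ range d.m, IT.up d (tl σ d Q) t ≤ ∑ t ∈ range d.m, IT.up d Q' t + #(WM d S)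

-- deps: ABS WARM MIR
/-- All links (copy `AF.all`). -/
def S_ALL : Prop :=
  ∀ (A : ℕ) (wt R : ℕ → ℕ), Wt A wt R → S_LQ wt →
    ∃ C : ℕ, ∀ (σ J c Z c' Z' : ℕ) (d : NU.Run) (S : Sys) (Q Q' : ℕ → Finset ℤ), OK d S →
    d.L / 2 ^ J = d.R / 2 ^ J → Marks d.L d.R d.m d.x c Z Q → One d.m d.x Q →
    Marks d.L d.R d.m d.x c' Z' Q' → (∀ j < S.J, ∀ t c, 1 ≤ S.om j t c) →
    (∀ a b, S.cell S.J a = S.cell S.J b ↔ a / 2 ^ (σ + 1) = b / 2 ^ (σ + 1)) →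
    (∀ t < d.m, ∀ z ∈ Q t, z ∈ Q' t ∨ z / 2 ^ (σ + 1) = d.x t / 2 ^ (σ + 1) ∨
      2 ≤ S.om S.J t (S.cell S.J z)) →
    100 * (d.LamR + d.mir.LamR) ≤ d.NR + d.mir.NR +
      C * (((d.R - d.L).toNat + d.m) * (S.J + 1) * (Nat.size (ht S) + 1) ^ 7 + BB0 d S + BB1 d S +
        #S.DR * S.W + TV.sw (d.R - d.L).toNat d.m Q' + ww wt σ J d.L d.R d.m d.x Q)

-- deps:
/-- The weights of the earlier step, plus two for the waiting items of the top band. -/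
def S_BUD : Prop :=
  ∃ C : ℕ, ∀ (T n : ℕ) (d : NU.Run) (pd : ℕ → Finset ℤ) (DR : Finset ℕ) (dr : ℕ → ℤ), d.OK →
    d.R = d.L + n + 1 → 2 ≤ T → (∀ t, #(pd t) ≤ 2 ^ 2 ^ T) →
    (∀ t < d.m, ∀ c, c ≠ d.x t / 2 ^ 2 ^ T → (c ∈ pd (t + 1) → c ∈ pd t) ∧
      (c ∈ pd t → c ∈ pd (t + 1) ∨ (t ∈ DR ∧ c = dr t))) →
    ∃ (S : Sys) (hot : ℕ → ℤ → Prop), S.J = T + 1 ∧ S.W ≤ C * 2 ^ T ∧ S.DR = DR ∧ OK d S ∧
      (∀ j < S.J, ∀ t c, 1 ≤ S.om j t c) ∧ (∀ a, S.cell S.J a = a / 2 ^ 2 ^ T) ∧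
      (∀ c, ¬ hot 0 c) ∧
      (∀ t c, t < d.m → c ≠ d.x t / 2 ^ 2 ^ T → (hot (t + 1) c ↔ hot t c)) ∧
      (∀ r t, r < t → t < d.m → d.x r / 2 ^ 2 ^ T = d.x t / 2 ^ 2 ^ T →
        NU.dst d.x r t ≤ 2 ^ 2 ^ T → hot t (d.x t / 2 ^ 2 ^ T)) ∧
      (∀ t c, hot t c ∨ c ∈ pd t → 2 ≤ S.om S.J t c) ∧
      BB0 d S + BB1 d S ≤ C * (d.m * (T + 2) + NU.MM d.x n d.m T)

/-- The items of the far witnesses that wait at time `t` of the fourfold sequence. -/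
noncomputable def PD (A m : ℕ) (y : ℕ → ℤ) (s : ℕ → ℕ) (F : Finset ℕ) (t : ℕ) : Finset ℤ :=
  ((range m).filter fun i => 1 ≤ i ∧ i ∈ F ∧ 4 * s i + 3 ≤ t ∧ t ≤ 4 * i).image
    fun i => y (s i) / 2 ^ A

-- deps:
def S_PND : Prop :=
  ∀ (A u m : ℕ) (y : ℕ → ℤ) (s : ℕ → ℕ) (F : Finset ℕ),
    (∀ i < m, 1 ≤ i → s i < i ∧ NU.dst y (s i) i ≤ 2 ^ u) →
    (∀ t, #(PD A m y s F t) ≤ 2 ^ u + 1) ∧
    (∀ t c, c ≠ y (t / 4) / 2 ^ A → (c ∈ PD A m y s F (t + 1) → c ∈ PD A m y s F t) ∧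
      (c ∈ PD A m y s F t → c ∈ PD A m y s F (t + 1) ∨
        (t ∈ F.image (fun i => 4 * i) ∧ c = y (s (t / 4)) / 2 ^ A))) ∧
    ∀ t, ∀ z ∈ PP A m y s {0} t, z ∈ PP A m y s (insert 0 F) t ∨ z / 2 ^ A ∈ PD A m y s F t

/-- All accesses after the first have a recent witness; outside `F` it is near. -/
def WitF (u m : ℕ) (a s v : ℕ → ℕ) (F : Finset ℕ) : Prop :=
  (∀ i < m, 1 ≤ i → s i < i ∧ #((Ioc (s i) i).image a) ≤ 2 ^ u) ∧ Wit u m a s v (insert 0 F)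

-- deps:
/-- Copy `AF.avq`. -/
def S_AVQ : Prop :=
  ∀ (A B : ℕ) (wt R G : ℕ → ℕ), Wt A wt R → (∀ l, R (l + 1) ≤ B * (G l + 1)) → Monotone G →
    ∀ (u m σ T' : ℕ) (a s v : ℕ → ℕ) (F : Finset ℕ), WitF u m a s v F → u ≤ σ →
    ∑ h ∈ range (2 ^ T'), AF.SQ wt σ (T' + 1) m (fun i => (a i : ℤ) + h) s {0} ≤
      2 ^ T' * ((300 * A + 1) * B * ((G 1 + 1) * m +
        ∑ i ∈ F, G (Nat.log 2 (Nat.dist (a i) (a (s i)) / 2 ^ u + 1))))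

-- deps: ALL BUD PND AVQ AE.MKA AE.MKB AE.AVA AE.AVC
/-- The link bound for one shift and all runs on the fourfold sequence (copy `AF.run`). -/
def S_RUN : Prop :=
  ∀ (A B : ℕ) (wt R G : ℕ → ℕ), Wt A wt R → S_LQ wt → (∀ l, R (l + 1) ≤ B * (G l + 1)) →
    Monotone G →
    ∃ C : ℕ, ∀ (n u m : ℕ) (a s v : ℕ → ℕ) (F : Finset ℕ), 1 ≤ n → (∀ i < m, 1 ≤ a i ∧ a i ≤ n) →
    WitF u m a s v F → ∃ h : ℕ, ∀ d : NU.Run, d.OK → d.L = h → d.R = (h : ℤ) + n + 1 →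
      d.m = 4 * m → (d.x = fun q => (a (q / 4) : ℤ) + h) →
      100 * (d.LamR + d.mir.LamR) ≤ d.NR + d.mir.NR +
        C * (∑ i ∈ (range m).filter (fun i => i ∉ insert 0 F), (v i + 1) +
          (n + m) * (Nat.log 2 (u + 1) + 1) ^ 8 + n * (u + 1) + #F * (u + 1) +
          ∑ i ∈ F, G (Nat.log 2 (Nat.dist (a i) (a (s i)) / 2 ^ u + 1)))

-- deps: RUN WQ.EPS NU.ALGA NU.BRG NU.TURN
/-- The bound with witnesses (copy `AF.loc0`, `AF.loc`). -/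
def S_LOC : Prop :=
  ∀ q : ℕ, 2 ≤ q → ∃ C : ℕ, ∀ (n u m : ℕ) (T : BT) (a s v : ℕ → ℕ) (F : Finset ℕ),
    T.keys = List.range' 1 n → (∀ i < m, 1 ≤ a i ∧ a i ≤ n) → WitF u m a s v F →
    cost T ((List.range m).map a) ≤
      C * (∑ i ∈ (range m).filter (fun i => i ∉ insert 0 F), (v i + 1) +
        (n + m) * (Nat.log 2 (u + 1) + 1) ^ 8 + n * (u + 1) + #F * (u + 1) +
        ∑ i ∈ F, gq q (Nat.log 2 (Nat.dist (a i) (a (s i)) / 2 ^ u + 1)))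

-- deps: LOC
/-- The end statement. -/
def S_END : Prop :=
  ∀ ε : ℝ, 0 < ε → ∃ C : ℝ, ∀ (n m u : ℕ) (T : BT) (a y : ℕ → ℕ), T.keys = List.range' 1 n →
    (∀ i < m, 1 ≤ a i ∧ a i ≤ n) → (∀ i < m, wset a i (y i) ≤ 2 ^ u) →
    (cost T ((List.range m).map a) : ℝ) ≤
      C * ((∑ i ∈ Finset.range m, Nat.log 2 (wset a i (y i) + Nat.dist (a i) (y i)) +
          (n + m) * (Nat.log 2 u + 1) ^ 8 + n * (u + 1) : ℕ) +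
        ∑ i ∈ Finset.range m,
          (Nat.log 2 (Nat.dist (a i) (y i) / 2 ^ u + 1) : ℝ) ^ (1 + ε))

end Pool.Agent.P.MP_119182_lc.AG
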