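import Pool.Agent.P.MP_119182_lc.AG.IfaceB

/-! Step PND. -/

set_option autoImplicit false

namespace Pool.Agent.P.MP_119182_lc.AG

open Finset
open scoped Classical
open NU (mr)
open LU (key tch up low isl Nx within beyond LK)
open IT (Marks One mq)
open AE (tl PP QM Hot Wit)
open WQ (Wt S_LQ ww gq)

theorem p_PND :
    S_PND := by
  intro A u m y s F H
  refine ⟨fun t => ?_, fun t c hc => ⟨fun h => ?_, fun h => ?_⟩, fun t z hz => ?_⟩
  · unfold PD
    rcases ((range m).filter fun i => 1 ≤ i ∧ i ∈ F ∧ 4 * s i + 3 ≤ t ∧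
      t ≤ 4 * i).eq_empty_or_nonempty with e | e
    · rw [e]
      simp
    obtain ⟨k, hk, hl⟩ := exists_min_image _ s e
    obtain ⟨k1, k2, -, -, k5⟩ := mem_filter.1 hk
    refine (card_le_card (t := (insert (y (s k)) ((Ioc (s k) k).image y)).image
      fun z => z / 2 ^ A) fun c hc => ?_).trans (card_image_le.trans
        ((card_insert_le _ _).trans (Nat.add_le_add_right (H k (mem_range.1 k1) k2).2 _)))
    obtain ⟨i, hi, rfl⟩ := mem_image.1 hc
    have a1 := hl i hi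
    obtain ⟨-, -, -, a4, -⟩ := mem_filter.1 hi
    refine mem_image_of_mem (fun z => z / 2 ^ A) ?_
    rcases a1.eq_or_lt with a | a
    · rw [a]
      exact mem_insert_self _ _
    · exact mem_insert_of_mem (mem_image_of_mem _ (mem_Ioc.2 ⟨a, by omega⟩))
  · obtain ⟨i, hi, rfl⟩ := mem_image.1 h
    obtain ⟨a1, a2, a3, a4, a5⟩ := mem_filter.1 hi
    by_cases k : 4 * s i + 3 ≤ t
    · exact mem_image.2 ⟨i, mem_filter.2 ⟨a1, a2, a3, k, by omega⟩, rfl⟩
    · exact absurd (by rw [show t / 4 = s i by omega]) hc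
  · obtain ⟨i, hi, rfl⟩ := mem_image.1 h
    obtain ⟨a1, a2, a3, a4, a5⟩ := mem_filter.1 hi
    by_cases k : t = 4 * i
    · exact Or.inr ⟨mem_image.2 ⟨i, a3, k.symm⟩, by rw [show t / 4 = i by omega]⟩
    · exact Or.inl (mem_image.2 ⟨i, mem_filter.2 ⟨a1, a2, a3, by omega, by omega⟩, rfl⟩)
  · obtain ⟨i, hi, rfl⟩ := mem_image.1 hz
    obtain ⟨a1, a2, a3, a4, a5⟩ := mem_filter.1 hi
    have a6 : i ≠ 0 := fun e => a2 (mem_singleton.2 e)
    by_cases k : i ∈ F
    · exact Or.inr (mem_image.2 ⟨i, mem_filter.2 ⟨a1, by omega, k, a4, a5⟩, rfl⟩)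
    · exact Or.inl (mem_image.2 ⟨i, mem_filter.2
        ⟨a1, fun e => (mem_insert.1 e).elim a6 k, a3, a4, a5⟩, rfl⟩)

end Pool.Agent.P.MP_119182_lc.AG
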