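import Pool.Agent.P.MP_119182_lc.AG.Iface

/-! Step QS. -/

set_option autoImplicit false

namespace Pool.Agent.P.MP_119182_lc.AG

open Finset
open scoped Classical
open NU (Run mr)
open LU (key tch up low isl Nx within beyond LK)

theorem p_QS (hBD : S_BD) (hFF : S_FF) (hGM : S_GM) (hVS : S_VS) :
    S_QS := by
  intro d S h j s i
  have mem : ∀ p ∈ CF d S j s i, bad d S p.1 p.2 ∧ bj d S p.1 p.2 = j ∧ st d S p.1 p.2 = s := by
    intro p hp
    unfold CF CL BAD at hp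
    have h1 := mem_filter.1 hp
    exact ⟨(mem_filter.1 (mem_filter.1 h1.1).1).2, h1.2.1, h1.2.2.1⟩
  have smono := (hFF d S h).1
  have frz := (hFF d S h).2.2.2.2.2.2.2
  have core : ∀ p ∈ CF d S j s i, it d S p.1 p.2 = S.cell j (d.x s) ∧
      QQ d S p.1 p.2 = j * S.W + max (Nat.log 2 (S.om j s (S.cell j (d.x s))))
        (Nat.log 2 (sm S j p.1 (S.cell j (d.x s) + 1) (S.cell j p.2 - 1))) ∧
      sm S j s (S.cell j (d.x s) + 1) (S.cell j p.2 - 1) ≤ S.SG j s (d.x s) ∧ s ≤ p.1 ∧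
      ∀ t1, s ≤ t1 → t1 ≤ p.1 → sm S j p.1 (S.cell j (d.x s) + 1) (S.cell j p.2 - 1) ≤
        sm S j t1 (S.cell j (d.x s) + 1) (S.cell j p.2 - 1) := by
    rintro ⟨t, u⟩ hp
    obtain ⟨hb, hj, hs⟩ := mem _ hp
    dsimp only at hb hj hs ⊢
    have ht : t < d.m := hb.1.1.1
    have ku : key d u := hb.1.1.2.1.1
    have hxu : d.x t < u := hb.1.1.2.2
    obtain ⟨-, -, -, -, ⟨g5, g6, g7⟩, -, g9⟩ := hGM d S h t u ht
    obtain ⟨v1, v2, v3, -, v5, -⟩ := hVS d S h t u hb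
    rw [hj, hs] at g9
    rw [hs] at g5 g6 g7 v5
    rw [hj] at v1 v2 v3
    have e1 : gm d S t u = Nat.log 2 (S.om j s (S.cell j (d.x s))) := by
      rw [← g7, g9]
      unfold lo
      rw [hj]
    have e2 : ∀ t1, s ≤ t1 → t1 ≤ t → sm S j t (S.cell j (d.x s) + 1) (S.cell j u - 1) ≤
        sm S j t1 (S.cell j (d.x s) + 1) (S.cell j u - 1) := by
      intro t1 k1 k2
      refine (frz j t1 t _ _ k2 ht.le fun r r0 r2 => ?_).1.1
      have r1 : s ≤ r := k1.trans r0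
      by_contra hn
      push Not at hn
      have hz : d.x r < u := by
        by_contra hc
        have := h.mono j (not_lt.1 hc)
        omega
      have h1 := (v2 r (d.x r) (g5.trans r1) r2.le (by omega) hz.le).1
      have h2 := (h.ok.tree r (by omega)).bnd u ku.1 ku.2
      have h3 := (v1 r (g5.trans r1) r2.le ⟨ku, h1, by omega⟩).2.1
      omega
    have pxt : pt d (d.x t) := ⟨(h.ok.step t ht).mem.1.le, (h.ok.step t ht).mem.2.le⟩
    have pxs : pt d (d.x s) := ⟨(h.ok.step s v5).mem.1.le, (h.ok.step s v5).mem.2.le⟩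
    have pu : pt d u := ⟨ku.1.le, ku.2.le⟩
    have e3 : S.cell (j + 1) (d.x t) = S.cell (j + 1) u :=
      (((hBD d S h).2.2.1 (d.x t) u pxt pu).2.2.1 j).1 (le_of_eq hj)
    have e4 : S.cell j (d.x s) = S.cell j (d.x t) := by
      rw [g9]
      unfold it
      rw [hj]
    have e5 := h.nest j _ _ e4
    have e6 := h.sg j s (d.x s) (d.x s) u pxs pu rfl (by omega)
    refine ⟨g9.symm, ?_, (smono j s _ _ _ _ (by omega) (by omega)).trans e6, g6, e2⟩
    unfold QQ pf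
    rw [hj, e1, ← g9]
  intro p hp
  obtain ⟨c1, c2, c3, c5, c6⟩ := core p hp
  have c4 := Nat.log_mono_right (b := 2) ((c6 s le_rfl c5).trans c3)
  refine ⟨by omega, by unfold B0; omega, fun q hq hpq => ?_⟩
  obtain ⟨f1, f2, -, f5, -⟩ := core q hq
  obtain ⟨hb, hj, hs⟩ := mem p hp
  obtain ⟨hb', hj', hs'⟩ := mem q hq
  obtain ⟨-, -, v3, -, -, v6, -, v8, -, -⟩ := hVS d S h p.1 p.2 hb
  obtain ⟨-, w2, -, -, -, -, w7, -, w9, w10⟩ := hVS d S h q.1 q.2 hb'
  have g5 := (hGM d S h q.1 q.2 hb'.1.1.1).2.2.2.2.1.1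
  have tr : ∀ r, s ≤ r → r ≤ q.1 → tch d r p.2 → tch d r q.2 := fun r r1 r2 =>
    (w2 r p.2 (by omega) r2 (by rw [f1, hj', ← c1, ← hj]; exact v3) hpq).2
  refine ⟨fun k => ?_, ?_, fun k => card_lt_card ⟨fun r hr => ?_, fun c => ?_⟩⟩
  · have f3 := Nat.log_mono_right (b := 2) ((c6 q.1 f5 k).trans
      (smono j q.1 (S.cell j (d.x s) + 1) (S.cell j p.2 - 1) (S.cell j (d.x s) + 1)
        (S.cell j q.2 - 1) le_rfl (by have := h.mono j hpq; omega)))
    omega
  · have v9 := (mem_filter.1 v8).2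
    by_contra hn
    exact w10 _ (by omega) (by omega) (tr _ (by omega) (by omega) v9)
  · obtain ⟨a1, a2⟩ := mem_filter.1 hr
    have a3 := mem_Icc.1 a1
    exact mem_filter.2 ⟨mem_Icc.2 ⟨by omega, by omega⟩, tr r (by omega) (by omega) a2⟩
  · have := (mem_Icc.1 (mem_filter.1 (c w9)).1).2
    omega

end Pool.Agent.P.MP_119182_lc.AG
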