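import Pool.Agent.P.MP_119182_lc.AG.Iface

/-! Step REF. -/

set_option autoImplicit false

namespace Pool.Agent.P.MP_119182_lc.AG

open Finset
open scoped Classical
open NU (Run mr)
open LU (key tch up low isl Nx within beyond LK)

theorem p_REF (hBD : S_BD) (hFZ : S_FZ) (hRFV : S_RFV) (hRFC : S_RFC) (hRFD : S_RFD) :
    S_REF := by
  intro d S h
  obtain ⟨N, hN⟩ : ∃ N : ℕ → ℤ → ℕ, N = fun s y => Nat.size (F S (s + 1) (d.lp (s + 1) y)
    (d.rp (s + 1) y) - F S (s + 1) y (d.rp (s + 1) y)) ^ 3 := ⟨_, rfl⟩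
  obtain ⟨A, hA⟩ : ∃ A : ℕ → ℤ → Prop, A = fun s y => S.cell (bd S y (d.rp (s + 1) y)) (d.x s) =
    S.cell (bd S y (d.rp (s + 1) y)) (d.rp (s + 1) y) := ⟨_, rfl⟩
  set Y := (RT d).filter fun p => rf d S p.1 p.2 with hY
  have h0 : ∀ p ∈ Y, ∃ s, rt d p.1 p.2 ∧ rfa d S p.1 p.2 s ∧
      ∀ s', rfa d S p.1 p.2 s' → s' ≤ s := fun p hp => by
    obtain ⟨a, s, hs⟩ := mem_filter.1 hp
    obtain ⟨s', h1, h2⟩ := exists_max_image ((range p.1).filter fun s => rfa d S p.1 p.2 s) id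
      ⟨s, mem_filter.2 ⟨mem_range.2 hs.1, hs⟩⟩
    exact ⟨s', (mem_filter.1 a).2, (mem_filter.1 h1).2,
      fun r hr => h2 r (mem_filter.2 ⟨mem_range.2 hr.1, hr⟩)⟩
  choose! s h1 h2 h3 using h0
  have inj : Set.InjOn (fun p : ℕ × ℤ => (s p, p.2)) Y := by
    have k : ∀ p ∈ Y, ∀ p' ∈ Y, s p = s p' → p.2 = p'.2 → ¬ p.1 < p'.1 := fun p hp p' hp' a e k =>
      (h2 p' hp').2.1 p.1 (by rw [← a]; exact (h2 p hp).1) k (e ▸ (h1 p hp).2.1)
    intro p hp p' hp' e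
    obtain ⟨e1, e2⟩ := Prod.mk.inj e
    exact Prod.ext (le_antisymm (not_lt.1 (k p' hp' p hp e1.symm e2.symm))
      (not_lt.1 (k p hp p' hp' e1 e2))) e2
  have a1 : REF d S ≤ ∑ p ∈ Y, N (s p) p.2 := sum_le_sum fun p hp => by
    rw [hN]
    exact Nat.pow_le_pow_left (Nat.size_le_size
      (hRFV d S h p.1 p.2 (s p) (h1 p hp) (h2 p hp) (h3 p hp)).2) 3
  have a2 : ∑ p ∈ Y, N (s p) p.2 ≤ ∑ q ∈ range d.m ×ˢ d.keys,
      ((if A q.1 q.2 then N q.1 q.2 else 0) +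
        if dcv S q.1 q.2 (d.rp (q.1 + 1) q.2) then N q.1 q.2 else 0) := by
    rw [← sum_image (f := fun q : ℕ × ℤ => N q.1 q.2) inj]
    refine le_trans (sum_le_sum fun q hq => ?_) (sum_le_sum_of_subset fun q hq => ?_)
    · obtain ⟨p, hp, rfl⟩ := mem_image.1 hq
      have e := (hRFV d S h p.1 p.2 (s p) (h1 p hp) (h2 p hp) (h3 p hp)).1
      dsimp only
      rcases (h2 p hp).2.2 with k | k
      · rw [if_pos (by rw [hA]; dsimp only; rw [e]; exact k)]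
        exact Nat.le_add_right _ _
      · rw [if_pos (show dcv S (s p) p.2 (d.rp (s p + 1) p.2) by rw [e]; exact k)]
        exact Nat.le_add_left _ _
    · obtain ⟨p, hp, rfl⟩ := mem_image.1 hq
      exact mem_product.2 ⟨mem_range.2 ((h2 p hp).1.trans (h1 p hp).1),
        mem_Ioo.2 (h1 p hp).2.1.1⟩
  have a3 : ∀ σ ∈ range d.m, ∑ y ∈ d.keys, (if A σ y then N σ y else 0) ≤
      ∑ j ∈ range (S.J + 1), (Nat.size (ht S) ^ 3 + 9 * B1 d S j σ) := fun σ hσ => by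
    have hσ := mem_range.1 hσ
    rw [← sum_filter, ← sum_fiberwise_of_maps_to (t := range (S.J + 1))
      (g := fun y => bd S y (d.rp (σ + 1) y)) fun y hy => ?_]
    · refine sum_le_sum fun j _ => le_trans ?_ (hRFC d S h σ j hσ)
      rw [hN]
      refine sum_le_sum_of_subset fun y hy => ?_
      obtain ⟨b1, b2⟩ := mem_filter.1 hy
      obtain ⟨b3, b4⟩ := mem_filter.1 b1
      rw [hA] at b4
      exact mem_filter.2 ⟨b3, b2, b2 ▸ b4⟩
    · have hk : key d y := mem_Ioo.1 (mem_filter.1 hy).1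
      obtain ⟨-, p2, -⟩ := (hFZ d h.ok).2.2.2.2.2.1 (σ + 1) y hσ hk
      exact mem_range.2 (Nat.lt_succ_of_le
        ((hBD d S h).2.2.1 y _ ⟨hk.1.le, hk.2.le⟩ p2).2.1)
  have a4 : ∀ σ ∈ range d.m, ∑ y ∈ d.keys,
      (if dcv S σ y (d.rp (σ + 1) y) then N σ y else 0) ≤
        if σ ∈ S.DR then 18 * S.W else 0 := fun σ hσ => by
    split_ifs with k
    · rw [← sum_filter, hN]
      exact hRFD d S h σ (mem_range.1 hσ)
    · exact (sum_eq_zero fun y _ => if_neg fun c => k c.2.1).le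
  have a5 := sum_le_sum a3
  have a6 := sum_le_sum a4
  have a7 : #((range d.m).filter fun σ => σ ∈ S.DR) * (18 * S.W) ≤ #S.DR * (18 * S.W) :=
    Nat.mul_le_mul_right _ (card_le_card fun σ hσ => (mem_filter.1 hσ).2)
  rw [← sum_filter, sum_const, smul_eq_mul] at a6
  rw [sum_add_distrib, sum_product, sum_product] at a2
  simp only [sum_add_distrib, sum_const, card_range, smul_eq_mul, ← mul_sum] at a5
  have e1 : #S.DR * (18 * S.W) = 18 * (#S.DR * S.W) := by ring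
  unfold BB1
  rw [mul_assoc]
  dsimp only at a2
  omega

end Pool.Agent.P.MP_119182_lc.AG
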